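import Pool.Agent.Helper3.SG.St

/-!
# SG, module A2: the smooth ideal sum has no main term
-/

set_option autoImplicit false

namespace Pool.Agent.Helper3.SG

open NumberField Filter Topology MeasureTheory
open scoped nonZeroDivisors ContDiff

universe u

private theorem finite_A2 (K : Type u) [Field K] [NumberField K] (y : ℝ) :
    Finite {I : (Ideal (𝓞 K))⁰ // (Ideal.absNorm (I : Ideal (𝓞 K)) : ℝ) ≤ y} := by
  have hf : {I : Ideal (𝓞 K) | Ideal.absNorm I ≤ ⌊y⌋₊}.Finite :=
    Ideal.finite_setOfPred_absNorm_le _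
  have := hf.to_subtype
  refine Finite.of_injective (β := {I : Ideal (𝓞 K) | Ideal.absNorm I ≤ ⌊y⌋₊})
    (fun I => ⟨((I : (Ideal (𝓞 K))⁰) : Ideal (𝓞 K)), Nat.le_floor I.2⟩) ?_
  intro I J h
  apply Subtype.ext
  apply Subtype.ext
  simpa using h

private theorem mono_A2 (K : Type u) [Field K] [NumberField K] : Monotone (JJ K) := by
  intro y z hyz
  unfold JJ
  have := finite_A2 K z
  have h := Nat.card_le_card_of_injective
    (α := {I : (Ideal (𝓞 K))⁰ // (Ideal.absNorm (I : Ideal (𝓞 K)) : ℝ) ≤ y})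
    (β := {I : (Ideal (𝓞 K))⁰ // (Ideal.absNorm (I : Ideal (𝓞 K)) : ℝ) ≤ z})
    (fun I => ⟨I.1, I.2.trans hyz⟩) (by
      intro I J h
      apply Subtype.ext
      simpa using h)
  exact_mod_cast h

private theorem zero_A2 (K : Type u) [Field K] [NumberField K] {y : ℝ} (hy : y < 1) :
    JJ K y = 0 := by
  unfold JJ
  have : IsEmpty {I : (Ideal (𝓞 K))⁰ // (Ideal.absNorm (I : Ideal (𝓞 K)) : ℝ) ≤ y} := by
    refine ⟨fun I => ?_⟩
    have h0 : ((I.1 : (Ideal (𝓞 K))⁰) : Ideal (𝓞 K)) ≠ ⊥ := nonZeroDivisors.coe_ne_zero I.1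
    have h1 : Ideal.absNorm ((I.1 : (Ideal (𝓞 K))⁰) : Ideal (𝓞 K)) ≠ 0 := by
      rwa [Ne, Ideal.absNorm_eq_zero_iff]
    have h2 : (1 : ℝ) ≤ Ideal.absNorm ((I.1 : (Ideal (𝓞 K))⁰) : Ideal (𝓞 K)) := by
      exact_mod_cast Nat.one_le_iff_ne_zero.2 h1
    linarith [I.2]
  rw [Nat.card_of_isEmpty]
  simp

private theorem nonneg_A2 (K : Type u) [Field K] [NumberField K] (y : ℝ) : 0 ≤ JJ K y := by
  unfold JJ
  positivity

private theorem lim_A2 (K : Type u) [Field K] [NumberField K] :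
    ∃ κ : ℝ, Tendsto (fun s : ℝ => JJ K s / s) atTop (𝓝 κ) :=
  ⟨_, NumberField.Ideal.tendsto_norm_le_div_atTop₀ K⟩

private theorem bound_A2 (K : Type u) [Field K] [NumberField K] :
    ∃ C : ℝ, 0 ≤ C ∧ ∀ y : ℝ, 0 ≤ y → JJ K y ≤ C * y := by
  obtain ⟨κ, hκ⟩ := lim_A2 K
  have h1 : ∀ᶠ s : ℝ in atTop, JJ K s / s < κ + 1 :=
    hκ.eventually (eventually_lt_nhds (by linarith))
  obtain ⟨y₀, hy₀⟩ := (h1.and (eventually_ge_atTop 1)).exists_forall_of_atTop
  have hy1 : 1 ≤ y₀ := (hy₀ y₀ le_rfl).2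
  have h0 : 0 < κ + 1 := lt_of_le_of_lt (div_nonneg (nonneg_A2 K y₀) (by linarith)) (hy₀ y₀ le_rfl).1
  have hb : ∀ y, y₀ ≤ y → JJ K y ≤ (κ + 1) * y := fun y hy => by
    have h3 := (hy₀ y hy).1
    rw [div_lt_iff₀ (by linarith)] at h3
    exact h3.le
  refine ⟨(κ + 1) * y₀, by positivity, fun y hy => ?_⟩
  rcases lt_or_ge y 1 with h | h
  · rw [zero_A2 K h]
    positivity
  · rcases le_total y₀ y with h' | h'
    · refine (hb y h').trans ?_
      have : (κ + 1) * y * 1 ≤ (κ + 1) * y * y₀ := by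
        apply mul_le_mul_of_nonneg_left hy1
        positivity
      nlinarith
    · refine (mono_A2 K h').trans ((hb y₀ le_rfl).trans ?_)
      have : (κ + 1) * y₀ * 1 ≤ (κ + 1) * y₀ * y := by
        apply mul_le_mul_of_nonneg_left h
        positivity
      linarith

theorem hA2 : StA2.{u} := by
  intro hA1 hP7 hP6 K _ _ Θ hΘ hint
  obtain ⟨M, C, hMC⟩ := hP7 hP6 K Θ hΘ
  obtain ⟨hsm, hcs, hts⟩ := hΘ
  -- the bound of the support
  obtain ⟨r, hr⟩ := hcs.isCompact.isBounded.subset_closedBall (0 : ℝ)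
  set b : ℝ := max r 0 + 1 with hb
  have hb0 : 0 < b := by
    have := le_max_right r 0
    linarith
  have hrb : r < b := by
    have := le_max_left r 0
    linarith
  have hsup : Function.support Θ ⊆ Set.Ioc 0 b := by
    intro t ht
    have h1 : t ∈ tsupport Θ := subset_tsupport _ ht
    have h2 := hr h1
    rw [Metric.mem_closedBall, Real.dist_eq, sub_zero] at h2
    exact ⟨hts h1, (le_abs_self t).trans (h2.trans hrb.le)⟩
  have hzero : ∀ t, b ≤ t → Θ t = 0 := by
    intro t ht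
    by_contra hne
    have h1 : t ∈ tsupport Θ := subset_tsupport _ hne
    have h2 := hr h1
    rw [Metric.mem_closedBall, Real.dist_eq, sub_zero] at h2
    linarith [le_abs_self t]
  have hS := fun x hx => hA1 K Θ b hsm hb0 hzero x hx
  obtain ⟨κ, hκ⟩ := lim_A2 K
  obtain ⟨B, hB0, hB⟩ := bound_A2 K
  have hdc : Continuous (deriv Θ) := hsm.continuous_deriv (by simp)
  -- dominated convergence
  have hlim : Tendsto (fun x : ℝ => ∫ u in (0 : ℝ)..b, JJ K (x * u) / x * deriv Θ u) atTop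
      (𝓝 (∫ u in (0 : ℝ)..b, κ * u * deriv Θ u)) := by
    refine intervalIntegral.tendsto_integral_filter_of_dominated_convergence
      (fun u => B * b * |deriv Θ u|) ?_ ?_ ?_ ?_
    · filter_upwards [eventually_gt_atTop 0] with x hx
      have hm : Measurable (fun u : ℝ => JJ K (x * u)) := by
        refine Monotone.measurable ?_
        intro u v huv
        exact mono_A2 K (mul_le_mul_of_nonneg_left huv hx.le)
      exact ((hm.div_const x).mul hdc.measurable).aestronglyMeasurable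
    · filter_upwards [eventually_gt_atTop 0] with x hx
      refine ae_of_all _ fun u hu => ?_
      rw [Set.uIoc_of_le hb0.le] at hu
      rw [Real.norm_eq_abs, abs_mul]
      refine mul_le_mul_of_nonneg_right ?_ (abs_nonneg _)
      rw [abs_of_nonneg (div_nonneg (nonneg_A2 K _) hx.le), div_le_iff₀ hx]
      refine (hB (x * u) (mul_nonneg hx.le hu.1.le)).trans ?_
      have : B * x * u ≤ B * x * b := mul_le_mul_of_nonneg_left hu.2 (mul_nonneg hB0 hx.le)
      nlinarith
    · exact ((continuous_const.mul hdc.abs).intervalIntegrable _ _)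
    · refine ae_of_all _ fun u hu => ?_
      rw [Set.uIoc_of_le hb0.le] at hu
      refine Tendsto.mul_const _ ?_
      have h1 : Tendsto (fun x : ℝ => JJ K (x * u) / (x * u)) atTop (𝓝 κ) :=
        hκ.comp (tendsto_id.atTop_mul_const hu.1)
      refine (h1.mul_const u).congr' ?_
      filter_upwards [eventually_gt_atTop 0] with x hx
      have hu' := hu.1.ne'
      field_simp
  -- the limit is zero
  have hparts : ∫ u in (0 : ℝ)..b, κ * u * deriv Θ u = 0 := by
    have h1 : ∫ u in (0 : ℝ)..b, u * deriv Θ u = b * Θ b - 0 * Θ 0 - ∫ u in (0 : ℝ)..b, 1 * Θ u := by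
      refine intervalIntegral.integral_mul_deriv_eq_deriv_mul (fun x _ => hasDerivAt_id x)
        (fun x _ => (hsm.differentiable (by simp) x).hasDerivAt) ?_ ?_
      · exact continuous_const.intervalIntegrable _ _
      · exact hdc.intervalIntegrable _ _
    have h2 : ∫ u in (0 : ℝ)..b, 1 * Θ u = 0 := by
      simp_rw [one_mul]
      rw [intervalIntegral.integral_eq_integral_of_support_subset hsup, hint]
    rw [h2, hzero b le_rfl] at h1
    simp_rw [mul_assoc]
    rw [intervalIntegral.integral_const_mul, h1]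
    simp
  rw [hparts] at hlim
  have hS0 : Tendsto (fun x : ℝ => (∑' I : (Ideal (𝓞 K))⁰,
      Θ ((Ideal.absNorm (I : Ideal (𝓞 K)) : ℝ) / x)) / x) atTop (𝓝 0) := by
    have h1 := hlim.neg
    rw [neg_zero] at h1
    refine h1.congr' ?_
    filter_upwards [eventually_gt_atTop 0] with x hx
    rw [hS x hx, neg_div, ← intervalIntegral.integral_div]
    congr 1
    refine intervalIntegral.integral_congr fun u _ => ?_
    ring
  have hSM : Tendsto (fun x : ℝ => (∑' I : (Ideal (𝓞 K))⁰,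
      Θ ((Ideal.absNorm (I : Ideal (𝓞 K)) : ℝ) / x)) / x) atTop (𝓝 M) := by
    rw [tendsto_iff_norm_sub_tendsto_zero]
    have h1 : Tendsto (fun x : ℝ => C / x ^ 2 / x) atTop (𝓝 0) := by
      have h2 : Tendsto (fun x : ℝ => C / x ^ 3) atTop (𝓝 0) :=
        tendsto_const_nhds.div_atTop (tendsto_pow_atTop (by norm_num))
      refine h2.congr fun x => ?_
      rw [div_div]
      congr 1
    refine squeeze_zero' (Eventually.of_forall fun x => norm_nonneg _) ?_ h1
    filter_upwards [eventually_ge_atTop 1] with x hx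
    have hx0 : 0 < x := by linarith
    have h3 := hMC x hx
    rw [Real.norm_eq_abs, show (∑' I : (Ideal (𝓞 K))⁰,
      Θ ((Ideal.absNorm (I : Ideal (𝓞 K)) : ℝ) / x)) / x - M = (∑' I : (Ideal (𝓞 K))⁰,
      Θ ((Ideal.absNorm (I : Ideal (𝓞 K)) : ℝ) / x) - M * x) / x by field_simp, abs_div,
      abs_of_pos hx0]
    exact div_le_div_of_nonneg_right h3 hx0.le
  have hM : M = 0 := tendsto_nhds_unique hSM hS0
  refine ⟨C, fun x hx => ?_⟩
  have h := hMC x hx
  rwa [hM, zero_mul, sub_zero] at h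

end Pool.Agent.Helper3.SG
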