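import Pool.Agent.Helper3.SG.St

/-! Project SG, module A3: the combination `D` is not zero at arbitrarily large integers. -/

set_option autoImplicit false

namespace Pool.Agent.Helper3.SG

open NumberField
open scoped nonZeroDivisors

universe u

section
variable (K : Type u) [Field K] [NumberField K]

/-- the ideals with `2^j N(I) ≤ m` -/
private def SA_A3 (j m : ℕ) : Set (Ideal (𝓞 K))⁰ :=
  {I | 2 ^ j * Ideal.absNorm (I : Ideal (𝓞 K)) ≤ m}

/-- the ideals with `2^j N(I) = m` -/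
private def SB_A3 (j m : ℕ) : Set (Ideal (𝓞 K))⁰ :=
  {I | 2 ^ j * Ideal.absNorm (I : Ideal (𝓞 K)) = m}

private theorem fin_A3 (j m : ℕ) : (SA_A3 K j m).Finite := by
  refine (Ideal.finite_setOfPred_absNorm_le₀ (S := 𝓞 K) m).subset ?_
  intro I hI
  have h1 : 2 ^ j * Ideal.absNorm (I : Ideal (𝓞 K)) ≤ m := hI
  have h2 : 1 ≤ 2 ^ j := Nat.one_le_two_pow
  show Ideal.absNorm (I : Ideal (𝓞 K)) ≤ m
  nlinarith

private theorem finB_A3 (j m : ℕ) : (SB_A3 K j m).Finite :=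
  (fin_A3 K j m).subset fun _ hI => le_of_eq hI

private theorem jj_A3 (j m : ℕ) : JJ K ((m : ℝ) / 2 ^ j) = ((SA_A3 K j m).ncard : ℝ) := by
  unfold JJ
  have : {I : (Ideal (𝓞 K))⁰ | (Ideal.absNorm (I : Ideal (𝓞 K)) : ℝ) ≤ (m : ℝ) / 2 ^ j} = SA_A3 K j m := by
    ext I
    show (Ideal.absNorm (I : Ideal (𝓞 K)) : ℝ) ≤ (m : ℝ) / 2 ^ j ↔
      2 ^ j * Ideal.absNorm (I : Ideal (𝓞 K)) ≤ m
    rw [le_div_iff₀ (by positivity), mul_comm]
    exact_mod_cast Iff.rfl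
  rw [← this]
  rfl

private theorem diff_A3 (j m : ℕ) (hm : 1 ≤ m) :
    (SA_A3 K j m).ncard = (SA_A3 K j (m - 1)).ncard + (SB_A3 K j m).ncard := by
  rw [← Set.ncard_union_eq ?_ (fin_A3 K j (m - 1)) (finB_A3 K j m)]
  · congr 1
    ext I
    show 2 ^ j * Ideal.absNorm (I : Ideal (𝓞 K)) ≤ m ↔
      2 ^ j * Ideal.absNorm (I : Ideal (𝓞 K)) ≤ m - 1 ∨ 2 ^ j * Ideal.absNorm (I : Ideal (𝓞 K)) = m
    omega
  · rw [Set.disjoint_left]
    intro I hI hI'
    have h1 : 2 ^ j * Ideal.absNorm (I : Ideal (𝓞 K)) ≤ m - 1 := hI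
    have h2 : 2 ^ j * Ideal.absNorm (I : Ideal (𝓞 K)) = m := hI'
    omega

private theorem norm3_A3 (i : ℕ) :
    Ideal.absNorm (Ideal.span {((3 ^ i : ℕ) : 𝓞 K)} : Ideal (𝓞 K)) = 3 ^ (i * Module.finrank ℚ K) := by
  rw [Ideal.absNorm_span_natCast, RingOfIntegers.rank, ← pow_mul]

private theorem nonempty_A3 (j i : ℕ) :
    (SB_A3 K j (2 ^ j * 3 ^ (i * Module.finrank ℚ K))).Nonempty := by
  have h0 : (Ideal.span {((3 ^ i : ℕ) : 𝓞 K)} : Ideal (𝓞 K)) ∈ (Ideal (𝓞 K))⁰ := by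
    rw [mem_nonZeroDivisors_iff_ne_zero]
    intro h
    have h1 := norm3_A3 K i
    rw [h] at h1
    simp only [Ideal.zero_eq_bot, Ideal.absNorm_bot] at h1
    exact absurd h1.symm (by positivity)
  refine ⟨⟨_, h0⟩, ?_⟩
  show 2 ^ j * Ideal.absNorm (Ideal.span {((3 ^ i : ℕ) : 𝓞 K)} : Ideal (𝓞 K)) = _
  rw [norm3_A3]

private theorem empty_A3 (j j0 q : ℕ) (hj : j0 < j) (hq : ¬ 2 ∣ q) : SB_A3 K j (2 ^ j0 * q) = ∅ := by
  rw [Set.eq_empty_iff_forall_notMem]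
  intro I hI
  have h1 : 2 ^ j * Ideal.absNorm (I : Ideal (𝓞 K)) = 2 ^ j0 * q := hI
  obtain ⟨k, rfl⟩ := Nat.exists_eq_add_of_lt hj
  apply hq
  have h2 : 2 ^ j0 * (2 ^ (k + 1) * Ideal.absNorm (I : Ideal (𝓞 K))) = 2 ^ j0 * q := by
    rw [← h1]; ring
  have h3 := Nat.eq_of_mul_eq_mul_left (by positivity) h2
  rw [← h3, pow_succ]
  exact ⟨2 ^ k * Ideal.absNorm (I : Ideal (𝓞 K)), by ring⟩

end

theorem hA3 : StA3.{u} := by
  intro K _ _ n c hc N
  classical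
  -- the least index with a nonzero coefficient
  have hex : ∃ j, j < n ∧ c j ≠ 0 := hc
  obtain ⟨hj0n, hj0c⟩ := Nat.find_spec hex
  have hmin : ∀ j, j < Nat.find hex → ¬ (j < n ∧ c j ≠ 0) := fun j hj => Nat.find_min hex hj
  generalize Nat.find hex = j0 at hj0n hj0c hmin
  have hd : 1 ≤ Module.finrank ℚ K := Module.finrank_pos
  set q : ℕ := 3 ^ ((N + 1) * Module.finrank ℚ K) with hqdef
  have hq2 : ¬ 2 ∣ q := by
    intro h
    have := Nat.Prime.dvd_of_dvd_pow Nat.prime_two h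
    omega
  have hqN : N + 1 ≤ q := by
    have h1 : N + 1 ≤ (N + 1) * Module.finrank ℚ K := by nlinarith
    have h2 : (N + 1) * Module.finrank ℚ K < 3 ^ ((N + 1) * Module.finrank ℚ K) :=
      Nat.lt_pow_self (by norm_num)
    omega
  set m : ℕ := 2 ^ j0 * q with hmdef
  have hmN : N + 1 ≤ m := by
    have : 1 ≤ 2 ^ j0 := Nat.one_le_two_pow
    nlinarith
  have hdiff : DDx K n c (m : ℕ) - DDx K n c ((m - 1 : ℕ) : ℝ) = (c j0 : ℝ) * ((SB_A3 K j0 m).ncard : ℝ) := by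
    unfold DDx
    rw [← Finset.sum_sub_distrib, Finset.sum_eq_single j0]
    · rw [jj_A3, jj_A3, diff_A3 K j0 m (by omega)]
      push_cast
      ring
    · intro j hj hne
      rw [jj_A3, jj_A3, diff_A3 K j m (by omega)]
      rcases lt_or_gt_of_ne hne with h | h
      · have : c j = 0 := by
          by_contra hcj
          exact hmin j h ⟨Finset.mem_range.1 hj, hcj⟩
        rw [this]
        simp
      · rw [hmdef, empty_A3 K j j0 q h hq2]
        simp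
    · intro h
      exact absurd (Finset.mem_range.2 hj0n) h
  have hcard : ((SB_A3 K j0 m).ncard : ℝ) ≠ 0 := by
    rw [Nat.cast_ne_zero]
    intro h
    rw [Set.ncard_eq_zero (finB_A3 K j0 m)] at h
    have := nonempty_A3 K j0 (N + 1)
    rw [← hqdef, ← hmdef, h] at this
    exact Set.not_nonempty_empty this
  have hne : (c j0 : ℝ) * ((SB_A3 K j0 m).ncard : ℝ) ≠ 0 :=
    mul_ne_zero (by exact_mod_cast hj0c) hcard
  by_cases hm : DDx K n c (m : ℕ) = 0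
  · refine ⟨m - 1, by omega, ?_⟩
    intro h
    rw [hm, h, sub_zero] at hdiff
    exact hne hdiff.symm
  · exact ⟨m, by omega, hm⟩

end Pool.Agent.Helper3.SG
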