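import Pool.Agent.Helper3.SG.St

/-!
# SG module A4: the smooth average
-/

set_option autoImplicit false

namespace Pool.Agent.Helper3.SG

open NumberField MeasureTheory Filter Topology
open scoped nonZeroDivisors ContDiff

universe u

private noncomputable def PsiA4 (t : ℝ) : ℝ := Real.smoothTransition (2 - t)

private lemma PsiA4_contDiff : ContDiff ℝ ∞ PsiA4 := by
  unfold PsiA4
  exact (Real.smoothTransition.contDiff (n := ⊤)).comp (contDiff_const.sub contDiff_id)

private lemma PsiA4_one {t : ℝ} (ht : t ≤ 1) : PsiA4 t = 1 :=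
  Real.smoothTransition.one_of_one_le (by linarith)

private lemma PsiA4_zero {t : ℝ} (ht : 2 ≤ t) : PsiA4 t = 0 :=
  Real.smoothTransition.zero_of_nonpos (by linarith)

private noncomputable def ThA4 (n : ℕ) (c : ℕ → ℤ) (t : ℝ) : ℝ :=
  ∑ j ∈ Finset.range n, (c j : ℝ) * PsiA4 (2 ^ j * t)

private lemma ThA4_zero_of_small (n : ℕ) (c : ℕ → ℤ) (hc : ∑ j ∈ Finset.range n, c j = 0)
    {t : ℝ} (ht : t ≤ 1 / 2 ^ n) : ThA4 n c t = 0 := by
  have h1 : ∀ j ∈ Finset.range n, (c j : ℝ) * PsiA4 (2 ^ j * t) = (c j : ℝ) := by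
    intro j hj
    have hjn : j ≤ n := (Finset.mem_range.mp hj).le
    have h2 : (2 : ℝ) ^ j ≤ 2 ^ n := pow_le_pow_right₀ (by norm_num) hjn
    have h3 : (2 : ℝ) ^ j * t ≤ 1 := by
      have hp : (0 : ℝ) < 2 ^ n := by positivity
      have hp' : (0 : ℝ) < 2 ^ j := by positivity
      calc (2 : ℝ) ^ j * t ≤ 2 ^ j * (1 / 2 ^ n) := mul_le_mul_of_nonneg_left ht hp'.le
        _ = 2 ^ j / 2 ^ n := by ring
        _ ≤ 1 := (div_le_one hp).mpr h2
    rw [PsiA4_one h3, mul_one]
  unfold ThA4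
  rw [Finset.sum_congr rfl h1, ← Int.cast_sum, hc, Int.cast_zero]

private lemma ThA4_zero_of_big (n : ℕ) (c : ℕ → ℤ) {t : ℝ} (ht : 2 ≤ t) : ThA4 n c t = 0 := by
  unfold ThA4
  refine Finset.sum_eq_zero fun j _ => ?_
  have h2 : (1 : ℝ) ≤ 2 ^ j := one_le_pow₀ (by norm_num)
  rw [PsiA4_zero (by nlinarith), mul_zero]

private lemma ThA4_contDiff (n : ℕ) (c : ℕ → ℤ) : ContDiff ℝ ∞ (ThA4 n c) := by
  unfold ThA4
  refine ContDiff.sum fun j _ => ?_
  exact contDiff_const.mul (PsiA4_contDiff.comp (contDiff_const.mul contDiff_id))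

private lemma ThA4_test (n : ℕ) (c : ℕ → ℤ) (hc : ∑ j ∈ Finset.range n, c j = 0) :
    Test (ThA4 n c) := by
  have hsupp : Function.support (ThA4 n c) ⊆ Set.Icc (1 / 2 ^ n) 2 := by
    intro t ht
    constructor
    · by_contra h
      exact ht (ThA4_zero_of_small n c hc (not_le.mp h).le)
    · by_contra h
      exact ht (ThA4_zero_of_big n c (not_le.mp h).le)
  have hts : tsupport (ThA4 n c) ⊆ Set.Icc (1 / 2 ^ n) 2 := closure_minimal hsupp isClosed_Icc
  refine ⟨ThA4_contDiff n c, ?_, ?_⟩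
  · exact HasCompactSupport.of_support_subset_isCompact isCompact_Icc hsupp
  · intro t ht
    have := (hts ht).1
    have hp : (0 : ℝ) < 1 / 2 ^ n := by positivity
    exact lt_of_lt_of_le hp this

private lemma ThA4_integral (n : ℕ) (c : ℕ → ℤ) (hc : ∑ j ∈ Finset.range n, c j = 0)
    (hc2 : ∑ j ∈ Finset.range n, (c j : ℝ) / 2 ^ j = 0) : ∫ t, ThA4 n c t = 0 := by
  have hsupp : Function.support (ThA4 n c) ⊆ Set.Ioc 0 2 := by
    intro t ht
    constructor
    · by_contra h
      have hp : (0 : ℝ) < 1 / 2 ^ n := by positivity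
      exact ht (ThA4_zero_of_small n c hc ((not_lt.mp h).trans hp.le))
    · by_contra h
      exact ht (ThA4_zero_of_big n c (not_le.mp h).le)
  rw [← intervalIntegral.integral_eq_integral_of_support_subset hsupp]
  have hcont : Continuous PsiA4 := PsiA4_contDiff.continuous
  have hj : ∀ j : ℕ, ∫ t in (0 : ℝ)..2, (c j : ℝ) * PsiA4 (2 ^ j * t) =
      (c j : ℝ) / 2 ^ j * ∫ t in (0 : ℝ)..2, PsiA4 t := by
    intro j
    have hp' : (0 : ℝ) < 2 ^ j := by positivity
    rw [intervalIntegral.integral_const_mul, intervalIntegral.integral_comp_mul_left _ hp'.ne',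
      mul_zero, ← intervalIntegral.integral_add_adjacent_intervals
        (hcont.intervalIntegrable 0 2) (hcont.intervalIntegrable 2 (2 ^ j * 2))]
    have h0 : ∫ t in (2 : ℝ)..(2 ^ j * 2), PsiA4 t = 0 := by
      have h1 : (1 : ℝ) ≤ 2 ^ j := one_le_pow₀ (by norm_num)
      have h2 : (2 : ℝ) ≤ 2 ^ j * 2 := by linarith
      have h3 : ∫ t in (2 : ℝ)..(2 ^ j * 2), PsiA4 t = ∫ t in (2 : ℝ)..(2 ^ j * 2), (0 : ℝ) := by
        refine intervalIntegral.integral_congr fun t ht => ?_
        rw [Set.uIcc_of_le h2] at ht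
        exact PsiA4_zero ht.1
      rw [h3, intervalIntegral.integral_zero]
    rw [h0, add_zero, smul_eq_mul]
    ring
  unfold ThA4
  rw [intervalIntegral.integral_finsetSum]
  · rw [Finset.sum_congr rfl (fun j _ => hj j), ← Finset.sum_mul, hc2, zero_mul]
  · intro j _
    exact (continuous_const.mul (hcont.comp (continuous_const.mul continuous_id))).intervalIntegrable
      _ _

private lemma JJ_monotone_A4 (K : Type u) [Field K] [NumberField K] : Monotone (JJ K) := by
  intro a b hab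
  unfold JJ
  refine Nat.cast_le.mpr ?_
  have hfin : {I : (Ideal (𝓞 K))⁰ | (Ideal.absNorm (I : Ideal (𝓞 K)) : ℝ) ≤ b}.Finite := by
    refine (Ideal.finite_setOfPred_absNorm_le₀ (S := 𝓞 K) ⌊b⌋₊).subset ?_
    intro I hI
    exact Nat.le_floor hI
  exact Nat.card_mono hfin (fun I hI => le_trans hI hab)

private lemma summable_A4 (K : Type u) [Field K] [NumberField K] (a : ℝ) (ha : 0 < a) :
    Summable fun I : (Ideal (𝓞 K))⁰ => PsiA4 (a * (Ideal.absNorm (I : Ideal (𝓞 K)) : ℝ)) := by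
  refine summable_of_hasFiniteSupport ?_
  refine (Ideal.finite_setOfPred_absNorm_le₀ (S := 𝓞 K) ⌊2 / a⌋₊).subset ?_
  intro I hI
  refine Nat.le_floor ?_
  by_contra h
  refine hI (PsiA4_zero ?_)
  have := (div_lt_iff₀ ha).mp (not_le.mp h)
  linarith

/-- Module A4. -/
theorem hA4 : StA4.{u} := by
  intro hA1 hA2 K _ _ n c hc hc2
  obtain ⟨C, hC⟩ := hA2 K (ThA4 n c) (ThA4_test n c hc) (ThA4_integral n c hc hc2)
  refine ⟨C, fun x hx => ?_⟩
  have hx0 : 0 < x := by linarith
  have key : ∑' I : (Ideal (𝓞 K))⁰, ThA4 n c ((Ideal.absNorm (I : Ideal (𝓞 K)) : ℝ) / x) =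
      ∫ u in (0 : ℝ)..2,
        DDx K n c (x * u) * (-deriv (fun t : ℝ => Real.smoothTransition (2 - t)) u) := by
    have hd : Continuous (deriv PsiA4) :=
      (PsiA4_contDiff.continuous_deriv (by simp))
    have h1 : ∀ j : ℕ, ∑' I : (Ideal (𝓞 K))⁰,
        (c j : ℝ) * PsiA4 (2 ^ j * ((Ideal.absNorm (I : Ideal (𝓞 K)) : ℝ) / x)) =
        ∫ u in (0 : ℝ)..2, (c j : ℝ) * (JJ K (x * u / 2 ^ j) * (-deriv PsiA4 u)) := by
      intro j
      have hp' : (0 : ℝ) < 2 ^ j := by positivity
      have h2 := hA1 K PsiA4 2 PsiA4_contDiff (by norm_num) (fun t ht => PsiA4_zero ht)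
        (x / 2 ^ j) (by positivity)
      rw [tsum_mul_left, intervalIntegral.integral_const_mul]
      congr 1
      have h3 : ∀ I : (Ideal (𝓞 K))⁰,
          PsiA4 (2 ^ j * ((Ideal.absNorm (I : Ideal (𝓞 K)) : ℝ) / x)) =
          PsiA4 ((Ideal.absNorm (I : Ideal (𝓞 K)) : ℝ) / (x / 2 ^ j)) := by
        intro I
        congr 1
        field_simp
      rw [tsum_congr h3, h2, ← intervalIntegral.integral_neg]
      refine intervalIntegral.integral_congr fun u _ => ?_
      change -(JJ K (x / 2 ^ j * u) * deriv PsiA4 u) = JJ K (x * u / 2 ^ j) * (-deriv PsiA4 u)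
      rw [show x / 2 ^ j * u = x * u / 2 ^ j by ring]
      ring
    have hint : ∀ j ∈ Finset.range n, IntervalIntegrable
        (fun u : ℝ => (c j : ℝ) * (JJ K (x * u / 2 ^ j) * (-deriv PsiA4 u))) volume 0 2 := by
      intro j _
      have hm : Monotone fun u : ℝ => JJ K (x * u / 2 ^ j) := by
        intro a b hab
        refine JJ_monotone_A4 K ?_
        have hp' : (0 : ℝ) < 2 ^ j := by positivity
        gcongr
      exact ((hm.intervalIntegrable).mul_continuousOn hd.neg.continuousOn).const_mul _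
    unfold ThA4
    rw [Summable.tsum_finsetSum, Finset.sum_congr rfl (fun j _ => h1 j),
      ← intervalIntegral.integral_finsetSum hint]
    · refine intervalIntegral.integral_congr fun u _ => ?_
      simp only [DDx, Finset.sum_mul]
      refine Finset.sum_congr rfl fun j _ => ?_
      rw [mul_assoc]
      rfl
    · intro j _
      have h4 := (summable_A4 K (2 ^ j / x) (by positivity)).mul_left (c j : ℝ)
      refine h4.congr fun I => ?_
      congr 2
      ring
  rw [← key]
  exact hC x hx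

end Pool.Agent.Helper3.SG
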