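import Pool.Agent.Helper3.SG.St

/-!
# SG: sign changes (module A5)
-/

set_option autoImplicit false

namespace Pool.Agent.Helper3.SG

open NumberField NumberField.mixedEmbedding NumberField.Units Filter Topology MeasureTheory
open scoped nonZeroDivisors ContDiff

universe u

private lemma cd_A5 : ContDiff ℝ ∞ (fun t : ℝ => Real.smoothTransition (2 - t)) :=
  Real.smoothTransition.contDiff.comp (contDiff_const.sub contDiff_id)

private noncomputable def w_A5 (u : ℝ) : ℝ := -deriv (fun t : ℝ => Real.smoothTransition (2 - t)) u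

private lemma w_cont_A5 : Continuous w_A5 := by
  unfold w_A5
  exact (cd_A5.continuous_deriv (by simp)).neg

private lemma w_nonneg_A5 (u : ℝ) : 0 ≤ w_A5 u := by
  have h : Antitone (fun t : ℝ => Real.smoothTransition (2 - t)) := fun a b hab =>
    Real.smoothTransition.monotone (by linarith)
  have h2 : deriv (fun t : ℝ => Real.smoothTransition (2 - t)) u ≤ 0 := h.deriv_nonpos
  unfold w_A5
  linarith

private lemma w_zero_A5 {u : ℝ} (hu : u < 1) : w_A5 u = 0 := by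
  unfold w_A5
  have h : (fun t : ℝ => Real.smoothTransition (2 - t)) =ᶠ[𝓝 u] fun _ => (1 : ℝ) := by
    filter_upwards [Iio_mem_nhds hu] with t ht
    exact Real.smoothTransition.one_of_one_le (by linarith [Set.mem_Iio.1 ht])
  rw [h.deriv_eq]
  simp

/-- an interval on which the weight is at least `1 / 2` -/
private lemma w_pos_A5 : ∃ u₀ δ : ℝ, 1 < u₀ ∧ 0 < δ ∧ u₀ + δ < 2 ∧
    ∀ u ∈ Set.Icc u₀ (u₀ + δ), 1 / 2 ≤ w_A5 u := by
  obtain ⟨c, hc, hc2⟩ := exists_deriv_eq_slope (fun t : ℝ => Real.smoothTransition (2 - t))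
    (by norm_num : (1 : ℝ) < 2) cd_A5.continuous.continuousOn
    ((cd_A5.differentiable (by simp)).differentiableOn)
  have h1 : w_A5 c = 1 := by
    unfold w_A5
    rw [hc2]
    have e1 : Real.smoothTransition (2 - 2 : ℝ) = 0 :=
      Real.smoothTransition.zero_of_nonpos (by norm_num)
    have e2 : Real.smoothTransition (2 - 1 : ℝ) = 1 :=
      Real.smoothTransition.one_of_one_le (by norm_num)
    rw [e1, e2]
    norm_num
  have h2 : ∀ᶠ u in 𝓝 c, 1 / 2 < w_A5 u := by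
    have h3 : Filter.Tendsto w_A5 (𝓝 c) (𝓝 (w_A5 c)) := w_cont_A5.tendsto c
    exact h3.eventually (lt_mem_nhds (by rw [h1]; norm_num))
  obtain ⟨ε, hε, h4⟩ := Metric.eventually_nhds_iff.1 h2
  refine ⟨c, min (ε / 2) ((2 - c) / 2), hc.1, lt_min (by linarith) (by linarith [hc.2]), ?_, ?_⟩
  · have := min_le_right (ε / 2) ((2 - c) / 2)
    linarith [hc.2]
  · intro u hu
    have h5 := min_le_left (ε / 2) ((2 - c) / 2)
    refine (h4 ?_).le
    rw [Real.dist_eq, abs_of_nonneg (by linarith [hu.1])]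
    linarith [hu.2]

section JJ

variable (K : Type u) [Field K] [NumberField K]

private lemma fin_A5 (y : ℝ) :
    Finite {I : (Ideal (𝓞 K))⁰ // (Ideal.absNorm (I : Ideal (𝓞 K)) : ℝ) ≤ y} := by
  have h1 : ({I : (Ideal (𝓞 K))⁰ | Ideal.absNorm (I : Ideal (𝓞 K)) ≤ ⌊y⌋₊}).Finite :=
    Ideal.finite_setOfPred_absNorm_le₀ _
  have h2 : ({I : (Ideal (𝓞 K))⁰ | (Ideal.absNorm (I : Ideal (𝓞 K)) : ℝ) ≤ y}).Finite := by
    refine h1.subset fun I hI => ?_
    exact Nat.le_floor hI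
  exact h2.to_subtype

private lemma JJ_mono_A5 : Monotone (JJ K) := by
  intro y z hyz
  unfold JJ
  have := fin_A5 K z
  have h : Nat.card {I : (Ideal (𝓞 K))⁰ // (Ideal.absNorm (I : Ideal (𝓞 K)) : ℝ) ≤ y} ≤
      Nat.card {I : (Ideal (𝓞 K))⁰ // (Ideal.absNorm (I : Ideal (𝓞 K)) : ℝ) ≤ z} :=
    Nat.card_le_card_of_injective (fun I => ⟨I.1, I.2.trans hyz⟩)
      (fun I J hIJ => by
        apply Subtype.ext
        exact congrArg (fun t => t.1) hIJ)
  exact_mod_cast h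

private lemma JJ_step_A5 (m j : ℕ) {y : ℝ} (h1 : (m : ℝ) ≤ y) (h2 : y < m + 1) :
    JJ K (y / 2 ^ j) = JJ K ((m : ℝ) / 2 ^ j) := by
  unfold JJ
  have h : ∀ I : (Ideal (𝓞 K))⁰, ((Ideal.absNorm (I : Ideal (𝓞 K)) : ℝ) ≤ y / 2 ^ j) ↔
      ((Ideal.absNorm (I : Ideal (𝓞 K)) : ℝ) ≤ (m : ℝ) / 2 ^ j) := by
    intro I
    have hp : (0 : ℝ) < 2 ^ j := by positivity
    rw [le_div_iff₀ hp, le_div_iff₀ hp]
    constructor
    · intro h3
      have h4 : ((Ideal.absNorm (I : Ideal (𝓞 K)) * 2 ^ j : ℕ) : ℝ) < ((m + 1 : ℕ) : ℝ) := by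
        push_cast
        exact lt_of_le_of_lt h3 h2
      have h5 : Ideal.absNorm (I : Ideal (𝓞 K)) * 2 ^ j ≤ m := by
        have := Nat.cast_lt.1 h4
        omega
      have h6 : ((Ideal.absNorm (I : Ideal (𝓞 K)) * 2 ^ j : ℕ) : ℝ) ≤ (m : ℝ) := Nat.cast_le.2 h5
      push_cast at h6
      exact h6
    · intro h3
      exact h3.trans h1
  have h' : {I : (Ideal (𝓞 K))⁰ // (Ideal.absNorm (I : Ideal (𝓞 K)) : ℝ) ≤ y / 2 ^ j} ≃
      {I : (Ideal (𝓞 K))⁰ // (Ideal.absNorm (I : Ideal (𝓞 K)) : ℝ) ≤ (m : ℝ) / 2 ^ j} :=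
    Equiv.subtypeEquivRight h
  rw [Nat.card_congr h']

private lemma DDx_step_A5 (n : ℕ) (c : ℕ → ℤ) (m : ℕ) {y : ℝ} (h1 : (m : ℝ) ≤ y)
    (h2 : y < m + 1) : DDx K n c y = DDx K n c m := by
  unfold DDx
  refine Finset.sum_congr rfl fun j _ => ?_
  rw [JJ_step_A5 K m j h1 h2]

private lemma DDx_int_A5 (n : ℕ) (c : ℕ → ℤ) (y : ℝ) : ∃ z : ℤ, DDx K n c y = z := by
  refine ⟨∑ j ∈ Finset.range n, c j * ((Nat.card {I : (Ideal (𝓞 K))⁰ //
    (Ideal.absNorm (I : Ideal (𝓞 K)) : ℝ) ≤ y / 2 ^ j} : ℕ) : ℤ), ?_⟩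
  unfold DDx JJ
  push_cast
  rfl

private lemma DDx_ii_A5 (n : ℕ) (c : ℕ → ℤ) {x : ℝ} (hx : 0 < x) (a b : ℝ) :
    IntervalIntegrable (fun u => DDx K n c (x * u)) volume a b := by
  unfold DDx
  have h : ∀ j ∈ Finset.range n,
      IntervalIntegrable (fun u => (c j : ℝ) * JJ K (x * u / 2 ^ j)) volume a b := by
    intro j _
    refine IntervalIntegrable.const_mul ?_ _
    refine Monotone.intervalIntegrable fun u v huv => JJ_mono_A5 K ?_
    have : (0 : ℝ) < 2 ^ j := by positivity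
    gcongr
  have h2 := IntervalIntegrable.sum (Finset.range n) h
  refine h2.congr ?_
  intro u _
  simp

private lemma ii_A5 (n : ℕ) (c : ℕ → ℤ) {x : ℝ} (hx : 0 < x) (a b : ℝ) :
    IntervalIntegrable (fun u => DDx K n c (x * u) * w_A5 u) volume a b :=
  (DDx_ii_A5 K n c hx a b).mul_continuousOn w_cont_A5.continuousOn

private lemma DDx_neg_A5 (n : ℕ) (c : ℕ → ℤ) (y : ℝ) :
    DDx K n (fun j => -c j) y = -DDx K n c y := by
  unfold DDx
  rw [← Finset.sum_neg_distrib]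
  refine Finset.sum_congr rfl fun j _ => ?_
  push_cast
  ring

end JJ

private lemma main_A5 (h3 : StA3.{u}) (h4 : StA4'.{u}) (K : Type u) [Field K] [NumberField K]
    (n : ℕ) (c : ℕ → ℤ) (hc : ∃ j < n, c j ≠ 0) (hc0 : ∑ j ∈ Finset.range n, c j = 0)
    (hc1 : ∑ j ∈ Finset.range n, (c j : ℝ) / 2 ^ j = 0) :
    ∀ x₀ : ℝ, ∃ x : ℝ, x₀ ≤ x ∧ 0 < DDx K n c x := by
  intro x₀
  by_contra hcon
  push Not at hcon
  obtain ⟨C, hC⟩ := h4 K n c hc0 hc1
  obtain ⟨u₀, δ, hu1, hδ, hu2, hw⟩ := w_pos_A5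
  have hu0 : 0 < u₀ := by linarith
  -- a large integer
  obtain ⟨N, hN⟩ := exists_nat_gt (u₀ * (|x₀| + 1 + 1 / δ + 2 * |C| + 1))
  obtain ⟨m, hNm, hm⟩ := h3 K n c hc N
  have hmN : u₀ * (|x₀| + 1 + 1 / δ + 2 * |C| + 1) < (m : ℝ) :=
    hN.trans_le (Nat.cast_le.2 hNm)
  set x : ℝ := m / u₀ with hxdef
  have hx : |x₀| + 1 + 1 / δ + 2 * |C| + 1 < x := by
    rw [hxdef, lt_div_iff₀ hu0]
    linarith
  have hδ' : 0 < 1 / δ := by positivity
  have hxx : x * u₀ = m := by
    rw [hxdef]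
    field_simp
  have hx1 : 1 ≤ x := by
    have := abs_nonneg x₀
    have := abs_nonneg C
    linarith
  have hx0 : 0 < x := by linarith
  have hxx0 : x₀ ≤ x := by
    have := le_abs_self x₀
    have := abs_nonneg C
    linarith
  have hxδ : 1 / x ≤ δ := by
    have h5 : 1 / δ ≤ x := by
      have := abs_nonneg x₀
      have := abs_nonneg C
      linarith
    rw [div_le_iff₀ hx0]
    rw [div_le_iff₀ hδ] at h5
    linarith
  have hxinv : 0 < 1 / x := by positivity
  -- the value at `m`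
  have hDm : DDx K n c m ≤ -1 := by
    obtain ⟨z, hz⟩ := DDx_int_A5 K n c (m : ℝ)
    have h6 : DDx K n c m ≤ 0 := by
      apply hcon
      have h7 : x ≤ m := by
        rw [← hxx]
        nlinarith
      linarith
    have h8 : z ≤ 0 := by
      rw [hz] at h6
      exact_mod_cast h6
    have h9 : z ≠ 0 := by
      intro h10
      rw [hz, h10] at hm
      exact hm (by simp)
    have h11 : z ≤ -1 := by omega
    rw [hz]
    exact_mod_cast h11
  -- the integral
  have hI := hC x hx1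
  have hfun : (fun u => DDx K n c (x * u) *
      (-deriv (fun t : ℝ => Real.smoothTransition (2 - t)) u)) =
      fun u => DDx K n c (x * u) * w_A5 u := rfl
  rw [hfun] at hI
  have hint := fun a b => ii_A5 K n c hx0 a b
  have s1 : (∫ u in (0 : ℝ)..2, DDx K n c (x * u) * w_A5 u) =
      (∫ u in (0 : ℝ)..1, DDx K n c (x * u) * w_A5 u) +
      ((∫ u in (1 : ℝ)..u₀, DDx K n c (x * u) * w_A5 u) +
      ((∫ u in u₀..(u₀ + 1 / x), DDx K n c (x * u) * w_A5 u) +
      ∫ u in (u₀ + 1 / x)..2, DDx K n c (x * u) * w_A5 u)) := by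
    rw [intervalIntegral.integral_add_adjacent_intervals (hint _ _) (hint _ _),
      intervalIntegral.integral_add_adjacent_intervals (hint _ _) (hint _ _),
      intervalIntegral.integral_add_adjacent_intervals (hint _ _) (hint _ _)]
  have hneg : ∀ a b : ℝ, 1 ≤ a → a ≤ b →
      (∫ u in a..b, DDx K n c (x * u) * w_A5 u) ≤ 0 := by
    intro a b ha hab
    have h12 : 0 ≤ ∫ u in a..b, -(DDx K n c (x * u) * w_A5 u) := by
      apply intervalIntegral.integral_nonneg hab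
      intro u hu
      have h13 : DDx K n c (x * u) ≤ 0 := by
        apply hcon
        have h14 : x ≤ x * u := by
          have : 1 ≤ u := ha.trans hu.1
          nlinarith
        linarith
      have h15 := w_nonneg_A5 u
      nlinarith [mul_nonneg (neg_nonneg.2 h13) h15]
    rw [intervalIntegral.integral_neg] at h12
    linarith
  have i1 : (∫ u in (0 : ℝ)..1, DDx K n c (x * u) * w_A5 u) ≤ 0 := by
    have h16 : (∫ u in (0 : ℝ)..1, DDx K n c (x * u) * w_A5 u) ≤ ∫ u in (0 : ℝ)..1, (0 : ℝ) := by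
      apply intervalIntegral.integral_mono_on_of_le_Ioo (by norm_num) (hint _ _) (by simp)
      intro u hu
      rw [w_zero_A5 hu.2, mul_zero]
    simpa using h16
  have i2 := hneg 1 u₀ le_rfl hu1.le
  have i4 := hneg (u₀ + 1 / x) 2 (by linarith) (by linarith)
  have i3 : (∫ u in u₀..(u₀ + 1 / x), DDx K n c (x * u) * w_A5 u) ≤
      ∫ u in u₀..(u₀ + 1 / x), (-(1 / 2) : ℝ) := by
    apply intervalIntegral.integral_mono_on_of_le_Ioo (by linarith) (hint _ _) (by simp)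
    intro u hu
    have h17 : DDx K n c (x * u) = DDx K n c m := by
      apply DDx_step_A5
      · rw [← hxx]
        exact (mul_le_mul_of_nonneg_left hu.1.le hx0.le)
      · have h18 : x * u < x * (u₀ + 1 / x) := mul_lt_mul_of_pos_left hu.2 hx0
        have h19 : x * (u₀ + 1 / x) = m + 1 := by
          rw [mul_add, hxx]
          field_simp
        linarith
    rw [h17]
    have h20 : 1 / 2 ≤ w_A5 u := hw u ⟨hu.1.le, by linarith [hu.2]⟩
    nlinarith
  have i3' : (∫ u in u₀..(u₀ + 1 / x), (-(1 / 2) : ℝ)) = -(1 / (2 * x)) := by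
    rw [intervalIntegral.integral_const, smul_eq_mul]
    field_simp
    ring
  have h21 : (∫ u in (0 : ℝ)..2, DDx K n c (x * u) * w_A5 u) ≤ -(1 / (2 * x)) := by
    rw [s1]
    linarith
  have h22 := neg_abs_le (∫ u in (0 : ℝ)..2, DDx K n c (x * u) * w_A5 u)
  have h23 : 1 / (2 * x) ≤ C / x ^ 2 := by linarith
  have h24 : x ≤ 2 * C := by
    rw [div_le_div_iff₀ (by positivity) (by positivity)] at h23
    have h25 : x * x ≤ x * (2 * C) := by nlinarith
    exact le_of_mul_le_mul_left h25 hx0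
  have h26 := le_abs_self C
  have h27 := abs_nonneg x₀
  linarith

theorem hA5 : StA5.{u} := by
  intro h3 h4 K _ _ n c hc hc0 hc1
  refine ⟨main_A5 h3 h4 K n c hc hc0 hc1, ?_⟩
  intro x₀
  obtain ⟨x, hx, hx2⟩ := main_A5 h3 h4 K n (fun j => -c j)
    (by
      obtain ⟨j, hj, hj2⟩ := hc
      exact ⟨j, hj, neg_ne_zero.2 hj2⟩)
    (by rw [Finset.sum_neg_distrib, hc0, neg_zero])
    (by
      have : ∀ j ∈ Finset.range n, (((-c j : ℤ) : ℝ) / 2 ^ j) = -((c j : ℝ) / 2 ^ j) := by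
        intro j _
        push_cast
        ring
      rw [Finset.sum_congr rfl this, Finset.sum_neg_distrib, hc1, neg_zero]) x₀
  refine ⟨x, hx, ?_⟩
  rw [DDx_neg_A5] at hx2
  linarith

end Pool.Agent.Helper3.SG
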