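import Pool.Agent.Helper3.SG.St

/-!
Project SG, module C1: properties of the cut-off function `chi`.
-/

set_option autoImplicit false

namespace Pool.Agent.Helper3.SG

open scoped ContDiff

private theorem chi_zero_C1 (c : ℝ) (hc : 1 ≤ |c|) : chi c = 0 := by
  unfold chi
  rcases le_abs.1 hc with h | h
  · rw [Real.smoothTransition.one_of_one_le (by linarith), Real.smoothTransition.one_of_one_le h, sub_self]
  · rw [Real.smoothTransition.zero_of_nonpos (by linarith), Real.smoothTransition.zero_of_nonpos (by linarith),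
      sub_self]

theorem hC1 : StC1 := by
  refine ⟨?_, chi_zero_C1, ?_, ?_⟩
  · have h : ContDiff ℝ ∞ Real.smoothTransition := Real.smoothTransition.contDiff
    exact (h.comp (contDiff_id.add contDiff_const)).sub h
  · intro c
    refine (Set.finite_Icc (⌊-c - 1⌋) (⌈-c + 1⌉)).subset ?_
    intro n hn
    have h1 : |c + n| < 1 := by
      by_contra h
      exact hn (chi_zero_C1 _ (not_lt.1 h))
    rw [abs_lt] at h1
    constructor
    · have : ((⌊-c - 1⌋ : ℤ) : ℝ) ≤ n := by
        have := Int.floor_le (-c - 1)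
        linarith
      exact_mod_cast this
    · have : (n : ℝ) ≤ (⌈-c + 1⌉ : ℤ) := by
        have := Int.le_ceil (-c + 1)
        linarith
      exact_mod_cast this
  · intro c
    have hf0 := Int.fract_nonneg c
    have hf1 := Int.fract_lt_one c
    have hfc : c = (⌊c⌋ : ℝ) + Int.fract c := (Int.floor_add_fract c).symm
    have hsum : ∑' n : ℤ, chi (c + n) = ∑ n ∈ ({-⌊c⌋ - 1, -⌊c⌋} : Finset ℤ), chi (c + n) := by
      refine tsum_eq_sum fun n hn => chi_zero_C1 _ ?_
      simp only [Finset.mem_insert, Finset.mem_singleton, not_or] at hn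
      by_contra h
      rw [not_le, abs_lt] at h
      have h1 : ((-⌊c⌋ - 2 : ℤ) : ℝ) < n := by
        push_cast
        linarith [h.1]
      have h2 : (n : ℝ) < ((-⌊c⌋ + 1 : ℤ) : ℝ) := by
        push_cast
        linarith [h.2]
      have h1' : -⌊c⌋ - 2 < n := by exact_mod_cast h1
      have h2' : n < -⌊c⌋ + 1 := by exact_mod_cast h2
      omega
    rw [hsum, Finset.sum_pair (by omega)]
    have e1 : c + ((-⌊c⌋ - 1 : ℤ) : ℝ) = Int.fract c - 1 := by
      push_cast
      linarith
    have e2 : c + ((-⌊c⌋ : ℤ) : ℝ) = Int.fract c := by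
      push_cast
      linarith
    rw [e1, e2]
    unfold chi
    rw [sub_add_cancel, Real.smoothTransition.zero_of_nonpos (by linarith : Int.fract c - 1 ≤ 0),
      Real.smoothTransition.one_of_one_le (by linarith : (1 : ℝ) ≤ Int.fract c + 1)]
    ring

end Pool.Agent.Helper3.SG
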