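import Pool.Agent.Helper3.SG.St

/-!
Project SG, module C2: products of the cut-off functions.
-/

set_option autoImplicit false

namespace Pool.Agent.Helper3.SG

theorem hC2 (h : StC1) : StC2 := by
  intro r c
  obtain ⟨-, -, hfin, hsum⟩ := h
  have hmem : ∀ n : Fin r → ℤ, ∏ i, chi (c i + n i) ≠ 0 →
      n ∈ Fintype.piFinset fun i => (hfin (c i)).toFinset := by
    intro n hn
    rw [Fintype.mem_piFinset]
    intro i
    rw [Set.Finite.mem_toFinset]
    exact (Finset.prod_ne_zero_iff.1 hn) i (Finset.mem_univ i)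
  refine ⟨(Finset.finite_toSet (Fintype.piFinset fun i => (hfin (c i)).toFinset)).subset ?_, ?_⟩
  · intro n hn
    exact hmem n hn
  · rw [tsum_eq_sum (s := Fintype.piFinset fun i => (hfin (c i)).toFinset)
      (fun n hn => by_contra fun h => hn (hmem n h))]
    rw [← Finset.prod_univ_sum (fun i => (hfin (c i)).toFinset) (fun i n => chi (c i + (n : ℤ)))]
    refine Finset.prod_eq_one fun i _ => ?_
    rw [← hsum (c i)]
    refine (tsum_eq_sum fun n hn => ?_).symm
    by_contra h
    exact hn ((Set.Finite.mem_toFinset _).2 h)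

end Pool.Agent.Helper3.SG
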