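import Pool.Agent.Helper3.SG.StG

/-!
# SG, module G0: integer arguments
-/

set_option autoImplicit false

namespace Pool.Agent.Helper3.SG

open NumberField Pool.Agent.Helper3.CF

universe u

private theorem jj_G0 (K : Type u) [Field K] [NumberField K] (x : ℝ) (hx : 0 ≤ x) (j : ℕ) :
    JJ K (x / 2 ^ j) = ((J K (⌊x⌋₊ / 2 ^ j) : ℕ) : ℝ) := by
  have hiff : ∀ N : ℕ, (N : ℝ) ≤ x / 2 ^ j ↔ N ≤ ⌊x⌋₊ / 2 ^ j := by
    intro N
    rw [le_div_iff₀ (by positivity), Nat.le_div_iff_mul_le (by positivity), Nat.le_floor_iff hx]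
    push_cast
    exact Iff.rfl
  unfold JJ J
  congr 1
  rw [← Fintype.card_coe, ← Nat.card_eq_fintype_card]
  refine Nat.card_congr
    { toFun := fun I => ⟨(I.1 : Ideal (𝓞 K)), mem_Th.2 ⟨nonZeroDivisors.ne_zero I.1.2, (hiff _).1 I.2⟩⟩
      invFun := fun I => ⟨⟨I.1, mem_nonZeroDivisors_of_ne_zero (mem_Th.1 I.2).1⟩,
        (hiff _).2 (mem_Th.1 I.2).2⟩
      left_inv := fun I => rfl
      right_inv := fun I => rfl }

private theorem dd_G0 (K : Type u) [Field K] [NumberField K] (n : ℕ) (c : ℕ → ℤ) (x : ℝ) (hx : 0 ≤ x) :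
    DDx K n c x = ((∑ j ∈ Finset.range n, c j * (J K (⌊x⌋₊ / 2 ^ j) : ℤ) : ℤ) : ℝ) := by
  unfold DDx
  push_cast
  exact Finset.sum_congr rfl fun j _ => by rw [jj_G0 K x hx j]

theorem hG0 : StG0.{u} := by
  intro h5 K _ _ n c h1 h2 h3
  obtain ⟨hp, hn⟩ := h5 K n c h1 h2 h3
  constructor
  · intro N
    obtain ⟨x, hx, hD⟩ := hp N
    have hx0 : 0 ≤ x := le_trans (Nat.cast_nonneg N) hx
    refine ⟨⌊x⌋₊, Nat.le_floor hx, ?_⟩
    rw [dd_G0 K n c x hx0] at hD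
    exact_mod_cast hD
  · intro N
    obtain ⟨x, hx, hD⟩ := hn N
    have hx0 : 0 ≤ x := le_trans (Nat.cast_nonneg N) hx
    refine ⟨⌊x⌋₊, Nat.le_floor hx, ?_⟩
    rw [dd_G0 K n c x hx0] at hD
    exact_mod_cast hD

end Pool.Agent.Helper3.SG
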