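import Pool.Agent.Helper3.SG.StG

/-!
Project SG, module G1: two maximal intersecting families.
-/

set_option autoImplicit false

namespace Pool.Agent.Helper3.SG

open NumberField Pool.Agent.Helper3.CF Finset

open scoped Classical

universe u

section coeff

variable {α : Type*}

/-- the coefficients of a family -/
private noncomputable def cf_G1 (k : ℕ) (H : Finset (Finset α)) (i : ℕ) : ℤ :=
  ∑ T ∈ H, ∑ j ∈ range (k - T.card + 1), if T.card + j = i then (-1) ^ j * ((k - T.card).choose j : ℤ) else 0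

private theorem cf_sum_G1 {R : Type*} [CommRing R] (k : ℕ) (H : Finset (Finset α))
    (hH : ∀ T ∈ H, T.card ≤ k) (g : ℕ → R) :
    ∑ i ∈ range (k + 1), ((cf_G1 k H i : ℤ) : R) * g i
      = ∑ T ∈ H, ∑ j ∈ range (k - T.card + 1),
          (-1) ^ j * (((k - T.card).choose j : ℕ) : R) * g (T.card + j) := by
  have h1 : ∀ i ∈ range (k + 1), ((cf_G1 k H i : ℤ) : R) * g i
      = ∑ T ∈ H, ∑ j ∈ range (k - T.card + 1),
          if T.card + j = i then (-1) ^ j * (((k - T.card).choose j : ℕ) : R) * g i else 0 := by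
    intro i _
    unfold cf_G1
    push_cast
    rw [Finset.sum_mul]
    refine Finset.sum_congr rfl fun T _ => ?_
    rw [Finset.sum_mul]
    refine Finset.sum_congr rfl fun j _ => ?_
    split_ifs <;> simp
  rw [Finset.sum_congr rfl h1, Finset.sum_comm]
  refine Finset.sum_congr rfl fun T hT => ?_
  rw [Finset.sum_comm]
  refine Finset.sum_congr rfl fun j hj => ?_
  rw [Finset.sum_ite_eq, if_pos]
  have := hH T hT
  rw [mem_range] at hj ⊢
  omega

end coeff

section field

set_option linter.unusedSectionVars false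

variable {K : Type u} [Field K] [NumberField K] {E : Finset (Ideal (𝓞 K))}
  {H : Finset (Finset (Ideal (𝓞 K)))}

private theorem card_le_G1 (hH : MaxI E H) : ∀ T ∈ H, T.card ≤ E.card :=
  fun T hT => card_le_card (hH.sub T hT)

private theorem E_mem_G1 (hH : MaxI E H) : E ∈ H := by
  rcases hH.full ∅ (empty_subset _) with h | h
  · obtain ⟨p, hp⟩ := hH.inter _ h _ h
    simp at hp
  · rwa [sdiff_empty] at h

private theorem sum_one_G1 (hH : MaxI E H) : ∑ i ∈ range (E.card + 1), cf_G1 E.card H i = 1 := by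
  have h1 := cf_sum_G1 (R := ℤ) E.card H (card_le_G1 hH) (fun _ => 1)
  simp only [mul_one, Int.cast_id] at h1
  rw [h1]
  have h2 : ∀ T ∈ H, (∑ j ∈ range (E.card - T.card + 1),
      (-1) ^ j * (((E.card - T.card).choose j : ℕ) : ℤ)) = if T = E then 1 else 0 := by
    intro T hT
    rw [Int.alternating_sum_range_choose]
    have h3 : E.card - T.card = 0 ↔ T = E := by
      constructor
      · intro h
        exact eq_of_subset_of_card_le (hH.sub T hT) (by omega)
      · rintro rfl
        simp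
    simp only [h3]
  rw [Finset.sum_congr rfl h2, Finset.sum_ite_eq', if_pos (E_mem_G1 hH)]

private theorem two_card_G1 (hH : MaxI E H) : 2 * H.card = 2 ^ E.card := by
  have hsub : H ⊆ E.powerset := fun T hT => mem_powerset.2 (hH.sub T hT)
  have himg : H.image (fun S => E \ S) = E.powerset \ H := by
    ext S
    rw [mem_image, mem_sdiff, mem_powerset]
    constructor
    · rintro ⟨T, hT, rfl⟩
      refine ⟨sdiff_subset, fun h => ?_⟩
      exact (hH.compl (hH.sub T hT)).1 h hT
    · rintro ⟨h1, h2⟩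
      exact ⟨E \ S, (hH.compl h1).2 h2, Finset.sdiff_sdiff_eq_self h1⟩
  have hinj : (H.image (fun S => E \ S)).card = H.card := by
    refine card_image_of_injOn fun S hS T hT h => ?_
    have h1 : E \ (E \ S) = E \ (E \ T) := by
      have h2 : E \ S = E \ T := h
      rw [h2]
    rwa [Finset.sdiff_sdiff_eq_self (hH.sub S hS), Finset.sdiff_sdiff_eq_self (hH.sub T hT)] at h1
  have h3 := card_sdiff_add_card_eq_card hsub
  rw [← himg, hinj, card_powerset] at h3
  omega

private theorem sum_half_G1 (hH : MaxI E H) :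
    ∑ i ∈ range (E.card + 1), ((cf_G1 E.card H i : ℤ) : ℝ) / 2 ^ i = 1 / 2 := by
  have h1 := cf_sum_G1 (R := ℝ) E.card H (card_le_G1 hH) (fun i => (1 / 2) ^ i)
  have h0 : ∑ i ∈ range (E.card + 1), ((cf_G1 E.card H i : ℤ) : ℝ) / 2 ^ i
      = ∑ i ∈ range (E.card + 1), ((cf_G1 E.card H i : ℤ) : ℝ) * (1 / 2) ^ i := by
    refine Finset.sum_congr rfl fun i _ => ?_
    rw [div_eq_mul_inv, one_div, inv_pow]
  rw [h0, h1]
  have h2 : ∀ T ∈ H, (∑ j ∈ range (E.card - T.card + 1),
      (-1) ^ j * (((E.card - T.card).choose j : ℕ) : ℝ) * (1 / 2) ^ (T.card + j))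
        = (1 / 2) ^ E.card := by
    intro T hT
    have h3 := add_pow (-(1 / 2 : ℝ)) 1 (E.card - T.card)
    have h4 : (∑ j ∈ range (E.card - T.card + 1),
      (-1) ^ j * (((E.card - T.card).choose j : ℕ) : ℝ) * (1 / 2) ^ (T.card + j))
        = (1 / 2) ^ T.card * (-(1 / 2 : ℝ) + 1) ^ (E.card - T.card) := by
      rw [h3, Finset.mul_sum]
      refine Finset.sum_congr rfl fun j _ => ?_
      rw [one_pow, mul_one, pow_add, neg_pow (1 / 2 : ℝ) j]
      generalize (-1 : ℝ) ^ j = a
      generalize (1 / 2 : ℝ) ^ j = c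
      generalize (1 / 2 : ℝ) ^ T.card = d
      ring
    rw [h4]
    have h5 : (-(1 / 2 : ℝ) + 1) = 1 / 2 := by norm_num
    rw [h5, ← pow_add]
    congr 1
    have := card_le_G1 hH T hT
    omega
  rw [Finset.sum_congr rfl h2, Finset.sum_const, nsmul_eq_mul]
  have h6 : (2 : ℝ) * H.card = 2 ^ E.card := by exact_mod_cast two_card_G1 hH
  have h7 : (0 : ℝ) < 2 ^ E.card := by positivity
  have h8 : ((1 : ℝ) / 2) ^ E.card = 1 / 2 ^ E.card := by rw [div_pow, one_pow]
  rw [h8]
  field_simp
  linarith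

private theorem fam_G1 (hE : IsE2 E) (hH : MaxI E H) (n : ℕ) :
    ((fam E H n).card : ℤ) = ∑ i ∈ range (E.card + 1), cf_G1 E.card H i * (J K (n / 2 ^ i) : ℤ) := by
  have h1 := cf_sum_G1 (R := ℤ) E.card H (card_le_G1 hH) (fun i => (J K (n / 2 ^ i) : ℤ))
  simp only [Int.cast_id] at h1
  rw [h1, fam_card_formula hE hH.sub]

end field

theorem hG1 : StG1.{u} := by
  intro hG0 K _ _ E hE H H' hH hH'
  have hdiff : ∀ m : ℕ, ∑ j ∈ range (E.card + 1),
      (cf_G1 E.card H j - cf_G1 E.card H' j) * (J K (m / 2 ^ j) : ℤ)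
        = ((fam E H m).card : ℤ) - ((fam E H' m).card : ℤ) := by
    intro m
    rw [fam_G1 hE hH, fam_G1 hE hH', ← Finset.sum_sub_distrib]
    exact Finset.sum_congr rfl fun j _ => by ring
  by_cases hc : ∃ j < E.card + 1, cf_G1 E.card H j - cf_G1 E.card H' j ≠ 0
  · right
    have h1 : ∑ j ∈ range (E.card + 1), (cf_G1 E.card H j - cf_G1 E.card H' j) = 0 := by
      rw [Finset.sum_sub_distrib, sum_one_G1 hH, sum_one_G1 hH', sub_self]
    have h2 : ∑ j ∈ range (E.card + 1),
        (((cf_G1 E.card H j - cf_G1 E.card H' j : ℤ)) : ℝ) / 2 ^ j = 0 := by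
      have h3 : ∀ j ∈ range (E.card + 1), (((cf_G1 E.card H j - cf_G1 E.card H' j : ℤ)) : ℝ) / 2 ^ j
          = ((cf_G1 E.card H j : ℤ) : ℝ) / 2 ^ j - ((cf_G1 E.card H' j : ℤ) : ℝ) / 2 ^ j := by
        intro j _
        push_cast
        ring
      rw [Finset.sum_congr rfl h3, Finset.sum_sub_distrib, sum_half_G1 hH, sum_half_G1 hH', sub_self]
    obtain ⟨hp, hn⟩ := hG0 K (E.card + 1) (fun j => cf_G1 E.card H j - cf_G1 E.card H' j) hc h1 h2
    constructor
    · intro N
      obtain ⟨m, hm, hm2⟩ := hp N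
      refine ⟨m, hm, ?_⟩
      rw [hdiff] at hm2
      exact_mod_cast (by linarith : ((fam E H' m).card : ℤ) < ((fam E H m).card : ℤ))
    · intro N
      obtain ⟨m, hm, hm2⟩ := hn N
      refine ⟨m, hm, ?_⟩
      rw [hdiff] at hm2
      exact_mod_cast (by linarith : ((fam E H m).card : ℤ) < ((fam E H' m).card : ℤ))
  · left
    push Not at hc
    intro n
    have h1 := hdiff n
    rw [Finset.sum_eq_zero] at h1
    · exact_mod_cast (by linarith : ((fam E H n).card : ℤ) = ((fam E H' n).card : ℤ))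
    · intro j hj
      rw [hc j (mem_range.1 hj), zero_mul]

end Pool.Agent.Helper3.SG
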