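import Pool.Agent.Helper3.SG.StG

/-!
# SG, module G2: no family is always optimal
-/

set_option autoImplicit false

namespace Pool.Agent.Helper3.SG

open Finset NumberField Pool.Agent.Helper3.CF
open scoped Classical

universe u

/-- The family of the `S ⊆ E` with at least two elements in the three-element set `R`. -/
private noncomputable def two_G2 {K : Type u} [Field K] [NumberField K]
    (E R : Finset (Ideal (𝓞 K))) : Finset (Finset (Ideal (𝓞 K))) :=
  E.powerset.filter (fun S => 2 ≤ (S ∩ R).card)

private theorem two_MaxI_G2 {K : Type u} [Field K] [NumberField K]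
    {E R : Finset (Ideal (𝓞 K))} (hR : R ⊆ E) (h3 : R.card = 3) : MaxI E (two_G2 E R) := by
  refine ⟨fun S hS => Finset.mem_powerset.1 (Finset.mem_filter.1 hS).1, ?_, ?_⟩
  · intro S hS T hT
    rw [two_G2, Finset.mem_filter, Finset.mem_powerset] at hS hT
    by_contra hcon
    rw [Finset.not_nonempty_iff_eq_empty] at hcon
    have hd : Disjoint (S ∩ R) (T ∩ R) := by
      rw [Finset.disjoint_left]
      intro x hx hy
      have : x ∈ S ∩ T := Finset.mem_inter.2 ⟨(Finset.mem_inter.1 hx).1, (Finset.mem_inter.1 hy).1⟩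
      rw [hcon] at this
      exact absurd this (Finset.notMem_empty x)
    have h4 := Finset.card_le_card
      (Finset.union_subset (Finset.inter_subset_right : S ∩ R ⊆ R)
        (Finset.inter_subset_right : T ∩ R ⊆ R))
    rw [Finset.card_union_of_disjoint hd] at h4
    omega
  · intro S hS
    by_cases h : 2 ≤ (S ∩ R).card
    · exact Or.inl (Finset.mem_filter.2 ⟨Finset.mem_powerset.2 hS, h⟩)
    · refine Or.inr (Finset.mem_filter.2 ⟨Finset.mem_powerset.2 Finset.sdiff_subset, ?_⟩)
      have h5 : (E \ S) ∩ R = R \ (S ∩ R) := by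
        ext x
        simp only [Finset.mem_inter, Finset.mem_sdiff]
        constructor
        · rintro ⟨⟨_, h6⟩, h7⟩
          exact ⟨h7, fun h8 => h6 h8.1⟩
        · rintro ⟨h6, h7⟩
          exact ⟨⟨hR h6, fun h8 => h7 ⟨h8, h6⟩⟩, h6⟩
      rw [h5, Finset.card_sdiff_of_subset Finset.inter_subset_right]
      omega

private theorem J_one_G2 {K : Type u} [Field K] [NumberField K] : J K 1 = 1 := by
  have h : Th K 1 = {⊤} := by
    ext I
    rw [mem_Th, Finset.mem_singleton]
    constructor
    · rintro ⟨h1, h2⟩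
      have h3 := norm_pos h1
      exact Ideal.absNorm_eq_one_iff.1 (le_antisymm h2 h3)
    · rintro rfl
      exact ⟨top_ne_bot, by rw [Ideal.absNorm_top]⟩
  rw [J, h, Finset.card_singleton]

private theorem two_card_G2 {K : Type u} [Field K] [NumberField K]
    {E R : Finset (Ideal (𝓞 K))} (hE : IsE2 E) : (fam E (two_G2 E R) 2).card = 0 := by
  have h1 := fam_card_formula hE (H := two_G2 E R)
    (fun S hS => Finset.mem_powerset.1 (Finset.mem_filter.1 hS).1) 2
  have h2 : ∑ T ∈ two_G2 E R, ∑ j ∈ range (E.card - T.card + 1),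
      (-1) ^ j * ((E.card - T.card).choose j : ℤ) * (J K (2 / 2 ^ (T.card + j)) : ℤ) = 0 := by
    refine Finset.sum_eq_zero fun T hT => Finset.sum_eq_zero fun j _ => ?_
    have h3 : 2 ≤ T.card :=
      (Finset.mem_filter.1 hT).2.trans (Finset.card_le_card Finset.inter_subset_left)
    have h4 : 2 / 2 ^ (T.card + j) = 0 := by
      apply Nat.div_eq_of_lt
      calc 2 < 2 ^ 2 := by norm_num
        _ ≤ 2 ^ (T.card + j) := Nat.pow_le_pow_right (by norm_num) (by omega)
    rw [h4, J_zero]
    simp
  rw [h2] at h1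
  exact_mod_cast h1

theorem hG2 : StG2.{u} := by
  intro h1 K _ _ E hE h3 H hH
  obtain ⟨R, hR, hR3⟩ := Finset.exists_subset_card_eq h3
  obtain ⟨e, he⟩ : E.Nonempty := Finset.card_pos.1 (by omega)
  by_cases hc : (fam E H 2).card = 0
  · refine ⟨_, star_MaxI he, ?_⟩
    rcases h1 K E hE H _ hH (star_MaxI he) with h4 | h4
    · exfalso
      have h5 := h4 2
      rw [star_card hE he, hc, show 2 / 2 = 1 from rfl, J_one_G2] at h5
      exact absurd h5 (by norm_num)
    · exact h4.2
  · refine ⟨_, two_MaxI_G2 hR hR3, ?_⟩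
    rcases h1 K E hE H _ hH (two_MaxI_G2 hR hR3) with h4 | h4
    · exfalso
      have h5 := h4 2
      rw [two_card_G2 hE] at h5
      exact hc h5
    · exact h4.2

end Pool.Agent.Helper3.SG
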