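import Pool.Agent.Helper3.SG.St

/-!
# SG, module L2: shifted lattice sums
-/

set_option autoImplicit false

namespace Pool.Agent.Helper3.SG

open Filter Topology
open scoped ContDiff

private theorem affine_L2 {d : ℕ} (v t : Fin d → ℝ) (j : Fin d) (R : ℝ) (s : ℝ) :
    (fun i => (v i + Function.update t j s i) / R) =
      (fun i => (v i + Function.update t j 0 i) / R) +
        (ContinuousLinearMap.toSpanSingleton ℝ (Pi.single j R⁻¹ : Fin d → ℝ)) s := by
  funext i
  rw [ContinuousLinearMap.toSpanSingleton_apply, Pi.add_apply, Pi.smul_apply, smul_eq_mul]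
  rcases eq_or_ne i j with rfl | h
  · rw [Function.update_self, Function.update_self, Pi.single_eq_same]
    rw [div_eq_mul_inv, div_eq_mul_inv]
    ring
  · rw [Function.update_of_ne h, Function.update_of_ne h, Pi.single_eq_of_ne h]
    ring

private theorem smooth_L2 {d : ℕ} (F : (Fin d → ℝ) → ℝ) (hF : ContDiff ℝ ∞ F)
    (v t : Fin d → ℝ) (j : Fin d) (R : ℝ) :
    ContDiff ℝ ∞ (fun s : ℝ => F (fun i => (v i + Function.update t j s i) / R)) := by
  have h : (fun s : ℝ => F (fun i => (v i + Function.update t j s i) / R)) =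
      fun s : ℝ => F ((fun i => (v i + Function.update t j 0 i) / R) +
        (ContinuousLinearMap.toSpanSingleton ℝ (Pi.single j R⁻¹ : Fin d → ℝ)) s) := by
    funext s
    rw [affine_L2]
  rw [h]
  exact hF.comp (contDiff_const.add (ContinuousLinearMap.contDiff _))

private theorem deriv_L2 {d : ℕ} (F : (Fin d → ℝ) → ℝ) (hF : ContDiff ℝ ∞ F) (k : ℕ) (M : ℝ)
    (hM : ∀ x, ‖iteratedFDeriv ℝ k F x‖ ≤ M) (v t : Fin d → ℝ) (j : Fin d) (R : ℝ) (hR : 0 < R)
    (s : ℝ) :
    |iteratedDeriv k (fun s : ℝ => F (fun i => (v i + Function.update t j s i) / R)) s| ≤ M / R ^ k := by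
  set a : Fin d → ℝ := fun i => (v i + Function.update t j 0 i) / R with ha
  set L : ℝ →L[ℝ] (Fin d → ℝ) := ContinuousLinearMap.toSpanSingleton ℝ (Pi.single j R⁻¹ : Fin d → ℝ)
    with hL
  have h : (fun s : ℝ => F (fun i => (v i + Function.update t j s i) / R)) =
      (fun y => F (a + y)) ∘ L := by
    funext s
    rw [affine_L2]
    rfl
  have hG : ContDiff ℝ ∞ (fun y => F (a + y)) := hF.comp (contDiff_const.add contDiff_id)
  rw [h, ← Real.norm_eq_abs, ← norm_iteratedFDeriv_eq_norm_iteratedDeriv,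
    ContinuousLinearMap.iteratedFDeriv_comp_right L hG s (by exact_mod_cast le_top)]
  have h1 : ‖(iteratedFDeriv ℝ k (fun y => F (a + y)) (L s)).compContinuousLinearMap fun _ => L‖ ≤
      ‖iteratedFDeriv ℝ k (fun y => F (a + y)) (L s)‖ * ∏ _i : Fin k, ‖L‖ :=
    ContinuousMultilinearMap.norm_compContinuousLinearMap_le _ _
  have h2 : iteratedFDeriv ℝ k (fun y => F (a + y)) (L s) = iteratedFDeriv ℝ k F (a + L s) := by
    rw [iteratedFDeriv_comp_add_left]
  have h3 : ‖L‖ ≤ R⁻¹ := by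
    rw [hL, ContinuousLinearMap.norm_toSpanSingleton, Pi.norm_single, Real.norm_eq_abs,
      abs_of_pos (inv_pos.2 hR)]
  have hM0 : 0 ≤ M := le_trans (norm_nonneg _) (hM 0)
  refine h1.trans ?_
  rw [h2, Finset.prod_const, Finset.card_univ, Fintype.card_fin]
  calc ‖iteratedFDeriv ℝ k F (a + L s)‖ * ‖L‖ ^ k ≤ M * (R⁻¹) ^ k := by
        refine mul_le_mul (hM _) (pow_le_pow_left₀ (norm_nonneg _) h3 k) (by positivity) hM0
    _ = M / R ^ k := by rw [inv_pow, div_eq_mul_inv]

/-- the box which contains all relevant lattice points -/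
private noncomputable def box_L2 {d : ℕ} (A R : ℝ) (t : Fin d → ℝ) : Finset (Fin d → ℤ) :=
  Fintype.piFinset fun i => Finset.Icc ⌈-(A * R) - t i - 1⌉ ⌊A * R - t i + 1⌋

private theorem box_card_L2 {d : ℕ} (A R : ℝ) (hA : 0 ≤ A) (hR : 1 ≤ R) (t : Fin d → ℝ) :
    ((box_L2 A R t).card : ℝ) ≤ (2 * A + 3) ^ d * R ^ d := by
  unfold box_L2
  rw [Fintype.card_piFinset]
  push_cast
  have h : ∀ i ∈ (Finset.univ : Finset (Fin d)),
      (((Finset.Icc ⌈-(A * R) - t i - 1⌉ ⌊A * R - t i + 1⌋).card : ℕ) : ℝ) ≤ (2 * A + 3) * R := by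
    intro i _
    rw [Int.card_Icc]
    have h1 : (⌊A * R - t i + 1⌋ : ℝ) ≤ A * R - t i + 1 := Int.floor_le _
    have h2 : -(A * R) - t i - 1 ≤ (⌈-(A * R) - t i - 1⌉ : ℝ) := Int.le_ceil _
    have h3 : ((⌊A * R - t i + 1⌋ + 1 - ⌈-(A * R) - t i - 1⌉ : ℤ) : ℝ) ≤ 2 * (A * R) + 3 := by
      push_cast
      linarith
    have h4 : (0 : ℝ) ≤ 2 * (A * R) + 3 := by positivity
    have h5 : (((⌊A * R - t i + 1⌋ + 1 - ⌈-(A * R) - t i - 1⌉).toNat : ℕ) : ℝ) ≤ 2 * (A * R) + 3 := by
      rcases le_total 0 (⌊A * R - t i + 1⌋ + 1 - ⌈-(A * R) - t i - 1⌉) with h6 | h6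
      · have h7 : (((⌊A * R - t i + 1⌋ + 1 - ⌈-(A * R) - t i - 1⌉).toNat : ℤ) : ℝ) =
            ((⌊A * R - t i + 1⌋ + 1 - ⌈-(A * R) - t i - 1⌉ : ℤ) : ℝ) := by
          rw [Int.toNat_of_nonneg h6]
        have h8 : (((⌊A * R - t i + 1⌋ + 1 - ⌈-(A * R) - t i - 1⌉).toNat : ℕ) : ℝ) =
            ((⌊A * R - t i + 1⌋ + 1 - ⌈-(A * R) - t i - 1⌉ : ℤ) : ℝ) := by
          rw [← h7]
          norm_cast
        rw [h8]
        exact h3
      · rw [Int.toNat_of_nonpos h6]
        simpa using h4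
    nlinarith
  calc ∏ i, (((Finset.Icc ⌈-(A * R) - t i - 1⌉ ⌊A * R - t i + 1⌋).card : ℕ) : ℝ)
      ≤ ∏ _i : Fin d, ((2 * A + 3) * R) := Finset.prod_le_prod (fun i _ => Nat.cast_nonneg _) h
    _ = (2 * A + 3) ^ d * R ^ d := by
        rw [Finset.prod_const, Finset.card_univ, Fintype.card_fin, mul_pow]

private theorem vanish_L2 {d : ℕ} (F : (Fin d → ℝ) → ℝ) (A R : ℝ) (hR : 1 ≤ R)
    (hFA : ∀ x, F x ≠ 0 → ∀ i, |x i| ≤ A) (t t' : Fin d → ℝ) (htt : ∀ i, |t' i - t i| ≤ 1)
    (n : Fin d → ℤ) (hn : n ∉ box_L2 A R t) : F (fun i => ((n i : ℝ) + t' i) / R) = 0 := by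
  by_contra hne
  apply hn
  unfold box_L2
  rw [Fintype.mem_piFinset]
  intro i
  have hR0 : 0 < R := by linarith
  have h1 := hFA _ hne i
  rw [abs_div, abs_of_pos hR0, div_le_iff₀ hR0, abs_le] at h1
  have h2 := abs_le.1 (htt i)
  rw [Finset.mem_Icc]
  constructor
  · rw [Int.ceil_le]
    linarith [h1.1, h2.2]
  · rw [Int.le_floor]
    linarith [h1.2, h2.1]

private theorem loc_L2 {d : ℕ} (F : (Fin d → ℝ) → ℝ) (A R : ℝ) (hR : 1 ≤ R)
    (hFA : ∀ x, F x ≠ 0 → ∀ i, |x i| ≤ A) (t : Fin d → ℝ) (j : Fin d) (s₀ : ℝ) :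
    (fun s : ℝ => ∑' n : Fin d → ℤ, F (fun i => ((n i : ℝ) + Function.update t j s i) / R)) =ᶠ[𝓝 s₀]
      fun s : ℝ => ∑ n ∈ box_L2 A R (Function.update t j s₀),
        F (fun i => ((n i : ℝ) + Function.update t j s i) / R) := by
  have hb : Metric.ball s₀ 1 ∈ 𝓝 s₀ := Metric.ball_mem_nhds _ one_pos
  filter_upwards [hb] with s hs
  rw [Metric.mem_ball, Real.dist_eq] at hs
  refine tsum_eq_sum fun n hn => ?_
  refine vanish_L2 F A R hR hFA (Function.update t j s₀) (Function.update t j s) ?_ n hn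
  intro i
  rcases eq_or_ne i j with rfl | h
  · rw [Function.update_self, Function.update_self]
    exact hs.le
  · rw [Function.update_of_ne h, Function.update_of_ne h, sub_self, abs_zero]
    exact zero_le_one

private theorem one_L2 (h : StL1) {d : ℕ} (F : (Fin d → ℝ) → ℝ) (hF : ContDiff ℝ ∞ F) (k : ℕ) (hk : 1 ≤ k)
    (M : ℝ) (hM : ∀ x, ‖iteratedFDeriv ℝ k F x‖ ≤ M) (A R : ℝ) (hA : 0 ≤ A) (hR : 1 ≤ R)
    (hFA : ∀ x, F x ≠ 0 → ∀ i, |x i| ≤ A) (t : Fin d → ℝ) (j : Fin d) (s s' : ℝ) :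
    |∑' n : Fin d → ℤ, F (fun i => ((n i : ℝ) + Function.update t j s i) / R) -
      ∑' n : Fin d → ℤ, F (fun i => ((n i : ℝ) + Function.update t j s' i) / R)| ≤
      (2 * A + 3) ^ d * M * R ^ d / R ^ k := by
  have hM0 : 0 ≤ M := le_trans (norm_nonneg _) (hM 0)
  have hR0 : 0 < R := by linarith
  refine h k (fun s : ℝ => ∑' n : Fin d → ℤ, F (fun i => ((n i : ℝ) + Function.update t j s i) / R))
    ((2 * A + 3) ^ d * M * R ^ d / R ^ k) hk ?_ ?_ ?_ s s'
  · rw [contDiff_iff_contDiffAt]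
    intro s₀
    refine ContDiffAt.congr_of_eventuallyEq ?_ (loc_L2 F A R hR hFA t j s₀)
    have : ContDiff ℝ ∞ (fun s : ℝ => ∑ n ∈ box_L2 A R (Function.update t j s₀),
        F (fun i => ((n i : ℝ) + Function.update t j s i) / R)) :=
      ContDiff.sum fun n _ => smooth_L2 F hF (fun i => (n i : ℝ)) t j R
    exact this.contDiffAt
  · intro s
    have e := (Equiv.addRight (Pi.single j (1 : ℤ) : Fin d → ℤ)).tsum_eq
      (fun n : Fin d → ℤ => F (fun i => ((n i : ℝ) + Function.update t j s i) / R))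
    rw [← e]
    refine tsum_congr fun n => ?_
    congr 1
    funext i
    simp only [Equiv.coe_addRight, Pi.add_apply]
    rcases eq_or_ne i j with rfl | h
    · rw [Function.update_self, Function.update_self, Pi.single_eq_same]
      push_cast
      ring
    · rw [Function.update_of_ne h, Function.update_of_ne h, Pi.single_eq_of_ne h]
      push_cast
      ring
  · intro s₀
    rw [(loc_L2 F A R hR hFA t j s₀).iteratedDeriv_eq k]
    have hs : iteratedDeriv k (fun s : ℝ => ∑ n ∈ box_L2 A R (Function.update t j s₀),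
        F (fun i => ((n i : ℝ) + Function.update t j s i) / R)) s₀ =
        ∑ n ∈ box_L2 A R (Function.update t j s₀),
          iteratedDeriv k (fun s : ℝ => F (fun i => ((n i : ℝ) + Function.update t j s i) / R)) s₀ := by
      rw [iteratedDeriv_fun_sum]
      intro n _
      exact ((smooth_L2 F hF (fun i => (n i : ℝ)) t j R).contDiffAt).of_le (by exact_mod_cast le_top)
    rw [hs]
    calc |∑ n ∈ box_L2 A R (Function.update t j s₀),
          iteratedDeriv k (fun s : ℝ => F (fun i => ((n i : ℝ) + Function.update t j s i) / R)) s₀|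
        ≤ ∑ n ∈ box_L2 A R (Function.update t j s₀),
          |iteratedDeriv k (fun s : ℝ => F (fun i => ((n i : ℝ) + Function.update t j s i) / R)) s₀| :=
          Finset.abs_sum_le_sum_abs _ _
      _ ≤ ∑ _n ∈ box_L2 A R (Function.update t j s₀), M / R ^ k :=
          Finset.sum_le_sum fun n _ => deriv_L2 F hF k M hM (fun i => (n i : ℝ)) t j R hR0 s₀
      _ = (box_L2 A R (Function.update t j s₀)).card * (M / R ^ k) := by
          rw [Finset.sum_const, nsmul_eq_mul]
      _ ≤ ((2 * A + 3) ^ d * R ^ d) * (M / R ^ k) :=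
          mul_le_mul_of_nonneg_right (box_card_L2 A R hA hR _) (by positivity)
      _ = (2 * A + 3) ^ d * M * R ^ d / R ^ k := by ring

/-- shifted lattice sums -/
theorem hL2 (h : StL1) : StL2 := by
  intro d F hF hc k hk
  -- the bound for the derivative
  obtain ⟨M, hM⟩ : ∃ M : ℝ, ∀ x, ‖iteratedFDeriv ℝ k F x‖ ≤ M :=
    (hF.continuous_iteratedFDeriv (m := k) (by exact_mod_cast le_top)).bounded_above_of_compact_support
      (hc.iteratedFDeriv k)
  -- the box containing the support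
  obtain ⟨A, hA0, hA⟩ : ∃ A : ℝ, 0 ≤ A ∧ ∀ x, F x ≠ 0 → ∀ i, |x i| ≤ A := by
    obtain ⟨A, hA⟩ := hc.isCompact.isBounded.subset_closedBall (0 : Fin d → ℝ)
    refine ⟨max A 0, le_max_right _ _, fun x hx i => ?_⟩
    have h1 : x ∈ Metric.closedBall (0 : Fin d → ℝ) A := hA (subset_tsupport _ hx)
    rw [mem_closedBall_zero_iff] at h1
    exact ((norm_le_pi_norm x i).trans h1).trans (le_max_left _ _)
  refine ⟨d * ((2 * A + 3) ^ d * M), fun R hR t => ?_⟩
  -- change the coordinates one at a time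
  have key : ∀ s : Finset (Fin d),
      |∑' n : Fin d → ℤ, F (fun i => ((n i : ℝ) + t i) / R) -
        ∑' n : Fin d → ℤ, F (fun i => ((n i : ℝ) + (if i ∈ s then 0 else t i)) / R)| ≤
        s.card * ((2 * A + 3) ^ d * M * R ^ d / R ^ k) := by
    intro s
    induction s using Finset.induction_on with
    | empty => simp
    | insert j s hj ih =>
      have h1 := one_L2 h F hF k hk M hM A R hA0 hR hA (fun i => if i ∈ s then 0 else t i) j (t j) 0
      have e1 : Function.update (fun i => if i ∈ s then 0 else t i) j (t j) =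
          fun i => if i ∈ s then 0 else t i := by
        funext i
        rcases eq_or_ne i j with rfl | hij
        · rw [Function.update_self, if_neg hj]
        · rw [Function.update_of_ne hij]
      have e2 : Function.update (fun i => if i ∈ s then 0 else t i) j 0 =
          fun i => if i ∈ insert j s then 0 else t i := by
        funext i
        rcases eq_or_ne i j with rfl | hij
        · rw [Function.update_self, if_pos (Finset.mem_insert_self _ _)]
        · rw [Function.update_of_ne hij]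
          simp [Finset.mem_insert, hij]
      rw [e1, e2] at h1
      rw [Finset.card_insert_of_notMem hj]
      push_cast
      have h2 := abs_sub_le (∑' n : Fin d → ℤ, F (fun i => ((n i : ℝ) + t i) / R))
        (∑' n : Fin d → ℤ, F (fun i => ((n i : ℝ) + (if i ∈ s then 0 else t i)) / R))
        (∑' n : Fin d → ℤ, F (fun i => ((n i : ℝ) + (if i ∈ insert j s then 0 else t i)) / R))
      linarith
  have h3 := key Finset.univ
  rw [Finset.card_univ, Fintype.card_fin] at h3
  simp only [Finset.mem_univ, if_true, add_zero] at h3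
  calc _ ≤ _ := h3
    _ = d * ((2 * A + 3) ^ d * M) * R ^ d / R ^ k := by ring

end Pool.Agent.Helper3.SG
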