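import Pool.Agent.Helper3.SG.St

/-! SG: smooth lattice point counting (module L3) -/

set_option autoImplicit false

namespace Pool.Agent.Helper3.SG

open MeasureTheory Module Submodule

private theorem fin_L3 (d : ℕ) (A : ℝ) :
    {n : Fin d → ℤ | ∀ i, |(n i : ℝ)| ≤ A}.Finite := by
  refine (Set.finite_Icc (fun _ : Fin d => -⌈A⌉) (fun _ => ⌈A⌉)).subset ?_
  intro n hn
  rw [Set.mem_ofPred_eq] at hn
  rw [Set.mem_Icc]
  constructor
  · intro i
    have h1 := (abs_le.1 (hn i)).1
    have h2 := Int.le_ceil A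
    have h3 : (-(⌈A⌉ : ℤ) : ℝ) ≤ n i := by linarith
    exact_mod_cast h3
  · intro i
    have h1 := (abs_le.1 (hn i)).2
    have h2 := Int.le_ceil A
    have h3 : (n i : ℝ) ≤ (⌈A⌉ : ℤ) := by linarith
    exact_mod_cast h3

/-- L3 (smooth lattice point counting). -/
theorem hL3 (h : StL2) : StL3 := by
  classical
  intro d F hF hFc k
  obtain ⟨C, hC⟩ := h d F hF hFc (k + d + 1) (by omega)
  refine ⟨C, fun R hR => ?_⟩
  have hR0 : 0 < R := by linarith
  set b := Pi.basisFun ℝ (Fin d) with hb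
  set G : (Fin d → ℝ) → ℝ := fun y => F (R⁻¹ • y) with hG
  have hGc : Continuous G := hF.continuous.comp (continuous_const_smul _)
  have hGs : HasCompactSupport G := hFc.comp_smul (inv_ne_zero hR0.ne')
  have hGi : Integrable G volume := hGc.integrable_of_hasCompactSupport hGs
  have e1 : ∫ y, G y = R ^ d * ∫ y, F y := by
    have := Measure.integral_comp_inv_smul_of_nonneg (volume : Measure (Fin d → ℝ)) F hR0.le
    simpa using this
  have : VAddInvariantMeasure (span ℤ (Set.range b)) (Fin d → ℝ) volume :=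
    inferInstanceAs (VAddInvariantMeasure (span ℤ (Set.range b)).toAddSubgroup (Fin d → ℝ) volume)
  have e2 := (ZSpan.isAddFundamentalDomain b (volume : Measure (Fin d → ℝ))).integral_eq_tsum'' G hGi
  set D : Set (Fin d → ℝ) := ZSpan.fundamentalDomain b with hD
  have hDpi : D = Set.pi Set.univ fun _ => Set.Ico (0 : ℝ) 1 := ZSpan.fundamentalDomain_pi_basisFun
  have hDm : MeasurableSet D := ZSpan.fundamentalDomain_measurableSet b
  have hDv : volume D = 1 := by
    rw [hDpi, Real.volume_pi_Ico]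
    simp
  -- reindexing
  let e : (Fin d → ℤ) ≃ span ℤ (Set.range b) := ((b.restrictScalars ℤ).equivFun.symm).toEquiv
  have he : ∀ n : Fin d → ℤ, ((e n : span ℤ (Set.range b)) : Fin d → ℝ) = fun i => (n i : ℝ) := by
    intro n
    funext i
    have h1 : (b.restrictScalars ℤ).equivFun (e n) = n :=
      (b.restrictScalars ℤ).equivFun.apply_symm_apply n
    have h2 := Basis.restrictScalars_repr_apply ℤ b (e n) i
    have h3 : (b.restrictScalars ℤ).repr (e n) i = n i := by
      have := congrFun h1 i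
      simpa using this
    rw [h3] at h2
    have h4 : ∀ v : Fin d → ℝ, b.repr v i = v i := by
      intro v
      rw [hb, Pi.basisFun_repr]
    rw [h4] at h2
    rw [← h2]
    simp
  rw [← e.tsum_eq] at e2
  have e3 : ∀ n : Fin d → ℤ, (∫ x in D, G ((e n : span ℤ (Set.range b)) +ᵥ x)) =
      ∫ x in D, G (fun i => (n i : ℝ) + x i) := by
    intro n
    congr 1
    funext x
    congr 1
    have : (e n : span ℤ (Set.range b)) +ᵥ x = ((e n : span ℤ (Set.range b)) : Fin d → ℝ) + x := rfl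
    rw [this, he]
    rfl
  simp only [e3] at e2
  -- finiteness
  obtain ⟨A, hA⟩ : ∃ A : ℝ, ∀ y : Fin d → ℝ, G y ≠ 0 → ‖y‖ ≤ A := by
    obtain ⟨A, hA⟩ := hGs.isCompact.isBounded.exists_norm_le
    exact ⟨A, fun y hy => hA y (subset_tsupport _ hy)⟩
  set T : Finset (Fin d → ℤ) := (fin_L3 d (A + 1)).toFinset with hT
  have hTz : ∀ n ∉ T, ∀ x : Fin d → ℝ, (∀ i, 0 ≤ x i ∧ x i ≤ 1) →
      G (fun i => (n i : ℝ) + x i) = 0 := by
    intro n hn x hx
    by_contra hne
    apply hn
    rw [hT, Set.Finite.mem_toFinset, Set.mem_ofPred_eq]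
    intro i
    have h1 := hA _ hne
    have h2 : |(n i : ℝ) + x i| ≤ A := (norm_le_pi_norm (fun i => (n i : ℝ) + x i) i).trans h1
    have h3 := hx i
    rw [abs_le] at h2 ⊢
    constructor <;> linarith [h2.1, h2.2, h3.1, h3.2]
  have hDx : ∀ x ∈ D, ∀ i, 0 ≤ x i ∧ x i ≤ 1 := by
    intro x hx i
    rw [hDpi] at hx
    have := hx i (Set.mem_univ i)
    exact ⟨this.1, this.2.le⟩
  have e4 : ∑' n : Fin d → ℤ, (∫ x in D, G (fun i => (n i : ℝ) + x i)) =
      ∑ n ∈ T, ∫ x in D, G (fun i => (n i : ℝ) + x i) := by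
    apply tsum_eq_sum
    intro n hn
    apply setIntegral_eq_zero_of_forall_eq_zero
    intro x hx
    exact hTz n hn x (hDx x hx)
  have hint : ∀ n : Fin d → ℤ, Integrable (fun x : Fin d → ℝ => G (fun i => (n i : ℝ) + x i)) := by
    intro n
    exact hGi.comp_add_left (fun i => (n i : ℝ))
  have e5 : ∑ n ∈ T, ∫ x in D, G (fun i => (n i : ℝ) + x i) =
      ∫ x in D, ∑ n ∈ T, G (fun i => (n i : ℝ) + x i) := by
    rw [integral_finsetSum]
    intro n _
    exact (hint n).integrableOn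
  -- the sums
  have hS : ∀ x : Fin d → ℝ, (∀ i, 0 ≤ x i ∧ x i ≤ 1) →
      ∑' n : Fin d → ℤ, F (fun i => ((n i : ℝ) + x i) / R) =
        ∑ n ∈ T, G (fun i => (n i : ℝ) + x i) := by
    intro x hx
    have h1 : ∀ n : Fin d → ℤ, F (fun i => ((n i : ℝ) + x i) / R) =
        G (fun i => (n i : ℝ) + x i) := by
      intro n
      rw [hG]
      simp only
      congr 1
      funext i
      simp [div_eq_inv_mul]
    simp only [h1]
    exact tsum_eq_sum fun n hn => hTz n hn x hx
  have hS0 : ∑' n : Fin d → ℤ, F (fun i => (n i : ℝ) / R) =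
      ∑ n ∈ T, G (fun i => (n i : ℝ) + (0 : Fin d → ℝ) i) := by
    rw [← hS 0 (fun i => by simp)]
    simp
  set ε : ℝ := C * R ^ d / R ^ (k + d + 1) with hε
  have hbound : ∀ x ∈ D, ‖(∑ n ∈ T, G (fun i => (n i : ℝ) + (0 : Fin d → ℝ) i)) -
      ∑ n ∈ T, G (fun i => (n i : ℝ) + x i)‖ ≤ ε := by
    intro x hx
    have h1 := hC R hR x
    rw [hS x (hDx x hx), hS0, abs_sub_comm] at h1
    exact h1
  have e6 : ∫ _x in D, (∑ n ∈ T, G (fun i => (n i : ℝ) + (0 : Fin d → ℝ) i)) =
      ∑ n ∈ T, G (fun i => (n i : ℝ) + (0 : Fin d → ℝ) i) := by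
    rw [setIntegral_const]
    simp [Measure.real, hDv]
  have hsum_int : IntegrableOn (fun x : Fin d → ℝ => ∑ n ∈ T, G (fun i => (n i : ℝ) + x i)) D :=
    (integrable_finsetSum T fun n _ => hint n).integrableOn
  have hmain : ‖(∑ n ∈ T, G (fun i => (n i : ℝ) + (0 : Fin d → ℝ) i)) -
      ∫ x in D, ∑ n ∈ T, G (fun i => (n i : ℝ) + x i)‖ ≤ ε := by
    rw [← e6, ← integral_sub]
    · have h2 := norm_setIntegral_le_of_norm_le_const (μ := (volume : Measure (Fin d → ℝ)))
        (s := D) (by rw [hDv]; exact ENNReal.one_lt_top) hbound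
      refine h2.trans (le_of_eq ?_)
      simp [Measure.real, hDv]
    · refine integrableOn_const ?_ ?_
      · rw [hDv]
        exact ENNReal.one_ne_top
      · simp
    · exact hsum_int
  have hfinal : |∑' n : Fin d → ℤ, F (fun i => (n i : ℝ) / R) - R ^ d * ∫ y, F y| ≤ ε := by
    rw [hS0, ← e1, e2, e4, e5]
    exact hmain
  refine hfinal.trans ?_
  have hC0 : 0 ≤ C := by
    have h3 := (abs_nonneg _).trans (hC 1 le_rfl 0)
    simpa using h3
  rw [hε, div_le_div_iff₀ (by positivity) (by positivity)]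
  have h4 : R ^ d * R ^ k ≤ R ^ (k + d + 1) := by
    rw [← pow_add]
    exact pow_le_pow_right₀ hR (by omega)
  nlinarith

end Pool.Agent.Helper3.SG
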