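import Pool.Agent.Helper3.SG.St

/-!
# SG module L4: smooth lattice point counting for general lattices
-/

set_option autoImplicit false

namespace Pool.Agent.Helper3.SG

open scoped ContDiff

universe u

theorem hL4 (h : StL3) : StL4.{u} := by
  intro V _ _ _ d b Φ hΦ hc
  let e : (Fin d → ℝ) ≃L[ℝ] V := b.equivFun.symm.toContinuousLinearEquiv
  have he : ∀ y, e y = ∑ i, y i • b i := fun y => b.equivFun_symm_apply y
  have h1 : ContDiff ℝ ∞ (Φ ∘ e) := hΦ.comp e.contDiff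
  have h2 : HasCompactSupport (Φ ∘ e) := hc.comp_homeomorph e.toHomeomorph
  refine ⟨∫ y, (Φ ∘ e) y, fun k => ?_⟩
  obtain ⟨C, hC⟩ := h d (Φ ∘ e) h1 h2 k
  refine ⟨C, fun R hR => ?_⟩
  have h3 := hC R hR
  have h4 : ∀ n : Fin d → ℤ, (Φ ∘ e) (fun i => (n i : ℝ) / R) =
      Φ (R⁻¹ • ∑ i, (n i : ℝ) • b i) := by
    intro n
    simp only [Function.comp_apply, he, Finset.smul_sum, smul_smul]
    congr 1
    refine Finset.sum_congr rfl fun i _ => ?_
    rw [div_eq_inv_mul]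
  rw [mul_comm (∫ y, (Φ ∘ e) y)]
  rw [tsum_congr h4] at h3
  exact h3

end Pool.Agent.Helper3.SG
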