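import Pool.Agent.Helper3.SG.St

set_option autoImplicit false

namespace Pool.Agent.Helper3.SG

open NumberField NumberField.mixedEmbedding NumberField.Units Filter Topology
open scoped nonZeroDivisors ContDiff

universe u

section

variable (K : Type u) [Field K] [NumberField K]

open scoped Classical in
private theorem nap_contDiffAt_P1 (w : InfinitePlace K) (v : mixedSpace K)
    (hv : normAtPlace w v ≠ 0) :
    ContDiffAt ℝ ∞ (fun x : mixedSpace K => normAtPlace w x) v := by
  rcases InfinitePlace.isReal_or_isComplex w with hw | hw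
  · have h1 : (fun x : mixedSpace K => normAtPlace w x) = fun x => ‖x.1 ⟨w, hw⟩‖ := by
      funext x; exact normAtPlace_apply_of_isReal hw x
    rw [h1]
    apply ContDiffAt.norm ℝ
    · have : ContDiff ℝ ∞ (fun x : mixedSpace K => x.1 ⟨w, hw⟩) :=
        (contDiff_apply ℝ ℝ (⟨w, hw⟩ : {w : InfinitePlace K // w.IsReal})).comp contDiff_fst
      exact this.contDiffAt
    · rw [normAtPlace_apply_of_isReal hw] at hv
      exact norm_ne_zero_iff.mp hv
  · have h1 : (fun x : mixedSpace K => normAtPlace w x) = fun x => ‖x.2 ⟨w, hw⟩‖ := by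
      funext x; exact normAtPlace_apply_of_isComplex hw x
    rw [h1]
    apply ContDiffAt.norm ℝ
    · have : ContDiff ℝ ∞ (fun x : mixedSpace K => x.2 ⟨w, hw⟩) :=
        (contDiff_apply ℝ ℂ (⟨w, hw⟩ : {w : InfinitePlace K // w.IsComplex})).comp contDiff_snd
      exact this.contDiffAt
    · rw [normAtPlace_apply_of_isComplex hw] at hv
      exact norm_ne_zero_iff.mp hv

open scoped Classical in
private theorem norm_contDiffAt_P1 (v : mixedSpace K) (hv : mixedEmbedding.norm v ≠ 0) :
    ContDiffAt ℝ ∞ (fun x : mixedSpace K => mixedEmbedding.norm x) v := by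
  have h1 : (fun x : mixedSpace K => mixedEmbedding.norm x) =
      fun x => ∏ w : InfinitePlace K, (normAtPlace w x) ^ (w.mult) := by
    funext x; exact mixedEmbedding.norm_apply x
  rw [h1]
  apply contDiffAt_prod
  intro w _
  exact (nap_contDiffAt_P1 K w v (mixedEmbedding.norm_ne_zero_iff.mp hv w)).pow _

open scoped Classical in
private theorem logMap_contDiffAt_P1 (v : mixedSpace K) (hv : mixedEmbedding.norm v ≠ 0) :
    ContDiffAt ℝ ∞ (fun x : mixedSpace K => logMap x) v := by
  rw [contDiffAt_pi]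
  intro w
  simp only [logMap_apply]
  apply ContDiffAt.mul contDiffAt_const
  apply ContDiffAt.sub
  · exact (nap_contDiffAt_P1 K w v (mixedEmbedding.norm_ne_zero_iff.mp hv w)).log
      (mixedEmbedding.norm_ne_zero_iff.mp hv w)
  · exact ((norm_contDiffAt_P1 K v hv).log hv).mul contDiffAt_const

open scoped Classical in
private theorem psi_contDiffAt_P1 (hC : ContDiff ℝ ∞ chi) (v : mixedSpace K)
    (hv : mixedEmbedding.norm v ≠ 0) :
    ContDiffAt ℝ ∞ (fun x : mixedSpace K => psi K x) v := by
  unfold psi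
  apply contDiffAt_prod
  intro i _
  have h1 : ContDiffAt ℝ ∞ (fun x : mixedSpace K => (lB K).repr (logMap x) i) v := by
    have h2 : ContDiff ℝ ∞ (fun y : dirichletUnitTheorem.logSpace K => (lB K).repr y i) := by
      have := (LinearMap.toContinuousLinearMap ((lB K).coord i)).contDiff (n := ∞)
      exact this
    exact h2.contDiffAt.comp v (logMap_contDiffAt_P1 K v hv)
  exact hC.contDiffAt.comp v h1

open scoped Classical in
private theorem bound_P1 (hC : ∀ c, 1 ≤ |c| → chi c = 0) (Θ : ℝ → ℝ) (hΘ : Test Θ) :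
    ∃ R : ℝ, ∀ v : mixedSpace K, Phi K Θ v ≠ 0 → ‖v‖ ≤ R := by
  obtain ⟨-, hc, hs⟩ := hΘ
  obtain ⟨L, hL⟩ := hc.isCompact.exists_bound_of_continuousOn (f := Real.log)
    (fun t ht => (Real.continuousAt_log (ne_of_gt (hs ht))).continuousWithinAt)
  have hL' : ∀ t ∈ tsupport Θ, |Real.log t| ≤ |L| := fun t ht =>
    (hL t ht).trans (le_abs_self L)
  set L' := |L| with hL'def
  have hL0 : 0 ≤ L' := abs_nonneg _
  set S : ℝ := ∑ i, ‖(lB K) i‖ with hS
  have hS0 : 0 ≤ S := Finset.sum_nonneg fun i _ => norm_nonneg _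
  set N : ℝ := (Fintype.card (InfinitePlace K) : ℝ) with hN
  have hN0 : 0 ≤ N := Nat.cast_nonneg _
  refine ⟨Real.exp (L' + S + L' + N * (S + 2 * L')), fun v hv => ?_⟩
  unfold Phi at hv
  have h1 : Θ (mixedEmbedding.norm v) ≠ 0 := left_ne_zero_of_mul hv
  have h2 : psi K v ≠ 0 := right_ne_zero_of_mul hv
  have h3 : mixedEmbedding.norm v ∈ tsupport Θ := subset_tsupport _ h1
  have hpos : 0 < mixedEmbedding.norm v := hs h3
  have hlog : |Real.log (mixedEmbedding.norm v)| ≤ L' := hL' _ h3
  have hcoord : ∀ i, |(lB K).repr (logMap v) i| ≤ 1 := by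
    intro i
    by_contra hcon
    push Not at hcon
    apply h2
    unfold psi
    exact Finset.prod_eq_zero (Finset.mem_univ i) (hC _ hcon.le)
  have hlm : ‖logMap v‖ ≤ S := by
    conv_lhs => rw [← (lB K).sum_repr (logMap v)]
    refine (norm_sum_le _ _).trans ?_
    refine Finset.sum_le_sum fun i _ => ?_
    rw [_root_.norm_smul, Real.norm_eq_abs]
    calc |(lB K).repr (logMap v) i| * ‖(lB K) i‖ ≤ 1 * ‖(lB K) i‖ := by
          gcongr; exact hcoord i
      _ = ‖(lB K) i‖ := one_mul _
  have hd : (1 : ℝ) ≤ (Module.finrank ℚ K : ℝ) := by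
    exact_mod_cast Nat.succ_le_of_lt (Module.finrank_pos (R := ℚ) (M := K))
  have hdinv : |Real.log (mixedEmbedding.norm v) * (Module.finrank ℚ K : ℝ)⁻¹| ≤ L' := by
    rw [abs_mul, abs_inv, abs_of_pos (by linarith : (0 : ℝ) < (Module.finrank ℚ K : ℝ))]
    calc |Real.log (mixedEmbedding.norm v)| * (Module.finrank ℚ K : ℝ)⁻¹
        ≤ |Real.log (mixedEmbedding.norm v)| * 1 := by
          gcongr
          exact inv_le_one_of_one_le₀ hd
      _ ≤ L' := by rw [mul_one]; exact hlog
  have hmult : ∀ w : InfinitePlace K, (1 : ℝ) ≤ (w.mult : ℝ) := by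
    intro w
    exact_mod_cast InfinitePlace.mult_pos (w := w)
  have hmult2 : ∀ w : InfinitePlace K, (w.mult : ℝ) ≤ 2 := by
    intro w
    unfold InfinitePlace.mult
    split_ifs <;> norm_num
  have hw : ∀ w : InfinitePlace K, w ≠ dirichletUnitTheorem.w₀ →
      |(w.mult : ℝ) * Real.log (normAtPlace w v)| ≤ S + 2 * L' := by
    intro w hw0
    have h4 : |logMap v ⟨w, hw0⟩| ≤ S := (norm_le_pi_norm (logMap v) ⟨w, hw0⟩).trans hlm
    rw [logMap_apply] at h4
    have h5 : (w.mult : ℝ) * Real.log (normAtPlace w v) =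
      (w.mult : ℝ) * (Real.log (normAtPlace w v) -
        Real.log (mixedEmbedding.norm v) * (Module.finrank ℚ K : ℝ)⁻¹) +
      (w.mult : ℝ) * (Real.log (mixedEmbedding.norm v) * (Module.finrank ℚ K : ℝ)⁻¹) := by ring
    rw [h5]
    refine (abs_add_le _ _).trans (add_le_add h4 ?_)
    rw [abs_mul, abs_of_nonneg (by linarith [hmult w] : (0 : ℝ) ≤ (w.mult : ℝ))]
    exact mul_le_mul (hmult2 w) hdinv (abs_nonneg _) (by norm_num)
  have hne : ∀ w : InfinitePlace K, normAtPlace w v ≠ 0 :=
    mixedEmbedding.norm_ne_zero_iff.mp hpos.ne'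
  have hsum : ∑ w : InfinitePlace K, (w.mult : ℝ) * Real.log (normAtPlace w v) =
      Real.log (mixedEmbedding.norm v) := by
    rw [mixedEmbedding.norm_apply, Real.log_prod (fun w _ => pow_ne_zero _ (hne w))]
    refine Finset.sum_congr rfl fun w _ => ?_
    rw [Real.log_pow]
  have hlogle : ∀ w : InfinitePlace K,
      Real.log (normAtPlace w v) ≤ L' + S + L' + N * (S + 2 * L') := by
    intro w
    have hBnonneg : 0 ≤ N * (S + 2 * L') := mul_nonneg hN0 (by linarith)
    rcases le_total (Real.log (normAtPlace w v)) 0 with hneg | hnn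
    · linarith
    have h6 : Real.log (normAtPlace w v) ≤ (w.mult : ℝ) * Real.log (normAtPlace w v) := by
      nlinarith [hmult w]
    refine h6.trans ?_
    by_cases hw0 : w = dirichletUnitTheorem.w₀
    · have h7 := Finset.add_sum_erase Finset.univ
        (fun w : InfinitePlace K => (w.mult : ℝ) * Real.log (normAtPlace w v)) (Finset.mem_univ w)
      rw [hsum] at h7
      have h8 : |∑ x ∈ Finset.univ.erase w, (x.mult : ℝ) * Real.log (normAtPlace x v)| ≤
          N * (S + 2 * L') := by
        refine (Finset.abs_sum_le_sum_abs _ _).trans ?_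
        refine (Finset.sum_le_card_nsmul _ _ (S + 2 * L') ?_).trans ?_
        · intro x hx
          apply hw
          rw [← hw0]
          exact Finset.ne_of_mem_erase hx
        · rw [nsmul_eq_mul]
          apply mul_le_mul_of_nonneg_right _ (by linarith)
          rw [hN]
          exact_mod_cast Finset.card_le_univ _
      have h9 := (abs_le.mp h8).1
      have h10 := (abs_le.mp hlog).2
      linarith
    · have := (abs_le.mp (hw w hw0)).2
      nlinarith
  have hfin : ∀ w : InfinitePlace K,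
      normAtPlace w v ≤ Real.exp (L' + S + L' + N * (S + 2 * L')) := by
    intro w
    have hp : 0 < normAtPlace w v := lt_of_le_of_ne (normAtPlace_nonneg w v) (hne w).symm
    exact (Real.log_le_iff_le_exp hp).mp (hlogle w)
  rw [norm_eq_sup'_normAtPlace]
  exact Finset.sup'_le _ _ fun w _ => hfin w

end

theorem hP1 : StP1.{u} := by
  classical
  intro hC1 K _ _ Θ hΘ
  obtain ⟨hc1, hc2, -, -⟩ := hC1
  constructor
  · rw [contDiff_iff_contDiffAt]
    intro v
    by_cases hv : mixedEmbedding.norm v = 0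
    · have h0 : (0 : ℝ) ∉ tsupport Θ := fun h => lt_irrefl (0 : ℝ) (hΘ.2.2 h)
      have h1 : Θ =ᶠ[𝓝 (0 : ℝ)] 0 := notMem_tsupport_iff_eventuallyEq.mp h0
      have h2 : ∀ᶠ x in 𝓝 v, Θ (mixedEmbedding.norm x) = 0 := by
        have h3 : Tendsto (fun x : mixedSpace K => mixedEmbedding.norm x) (𝓝 v) (𝓝 0) := by
          have := (mixedEmbedding.continuous_norm K).tendsto v
          rwa [hv] at this
        exact h3.eventually h1
      have h3 : Phi K Θ =ᶠ[𝓝 v] fun _ => (0 : ℝ) := by
        filter_upwards [h2] with x hx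
        unfold Phi
        rw [hx, zero_mul]
      exact contDiffAt_const.congr_of_eventuallyEq h3
    · unfold Phi
      exact (hΘ.1.contDiffAt.comp v (norm_contDiffAt_P1 K v hv)).mul
        (psi_contDiffAt_P1 K hc1 v hv)
  · obtain ⟨R, hR⟩ := bound_P1 K hc2 Θ hΘ
    refine HasCompactSupport.intro (isCompact_closedBall (0 : mixedSpace K) R) ?_
    intro x hx
    by_contra hne
    apply hx
    rw [mem_closedBall_zero_iff]
    exact hR x hne

end Pool.Agent.Helper3.SG
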