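import Pool.Agent.Helper3.SG.St

set_option autoImplicit false

namespace Pool.Agent.Helper3.SG

open NumberField NumberField.mixedEmbedding NumberField.Units Filter Topology
open scoped nonZeroDivisors ContDiff

universe u

/-- homogeneity -/
theorem hP2 : StP2.{u} := by
  intro K _ _ Θ hΘ R hR v
  have hRd : 0 < R ^ Module.finrank ℚ K := pow_pos hR _
  have hn : mixedEmbedding.norm (R⁻¹ • v) = mixedEmbedding.norm v / R ^ Module.finrank ℚ K := by
    rw [mixedEmbedding.norm_smul, abs_of_pos (inv_pos.2 hR), inv_pow]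
    field_simp
  unfold Phi
  rw [hn]
  by_cases hv : mixedEmbedding.norm v = 0
  · have h0 : Θ 0 = 0 := by
      by_contra h
      have h1 : (0 : ℝ) ∈ tsupport Θ := subset_tsupport Θ h
      have h2 := hΘ.2.2 h1
      exact lt_irrefl (0 : ℝ) (Set.mem_Ioi.1 h2)
    rw [hv, zero_div, h0, zero_mul, zero_mul]
  · have hl : logMap (R⁻¹ • v) = logMap v := logMap_real_smul hv (inv_ne_zero hR.ne')
    unfold psi
    rw [hl]

end Pool.Agent.Helper3.SG
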