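import Pool.Agent.Helper3.SG.St

/-!
# SG, module P3: the cut-off function and the units
-/

set_option autoImplicit false

namespace Pool.Agent.Helper3.SG

open NumberField NumberField.mixedEmbedding NumberField.Units Filter Topology
open scoped nonZeroDivisors ContDiff

universe u

section

variable (K : Type u) [Field K] [NumberField K]

/-- the bijection between `torsion × ℤ^r` and the units -/
private noncomputable def unitEquiv_P3 : torsion K × (Fin (rank K) → ℤ) ≃ (𝓞 K)ˣ :=
  Equiv.ofBijective (fun ζe => (ζe.1 : (𝓞 K)ˣ) * ∏ i, (fundSystem K i) ^ (ζe.2 i)) (by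
    constructor
    · intro a b hab
      obtain ⟨c, -, hc⟩ := exist_unique_eq_mul_prod K ((a.1 : (𝓞 K)ˣ) * ∏ i, (fundSystem K i) ^ (a.2 i))
      exact (hc a rfl).trans (hc b hab).symm
    · intro x
      obtain ⟨c, hc, -⟩ := exist_unique_eq_mul_prod K x
      exact ⟨c, hc.symm⟩)

private lemma unitEquiv_apply_P3 (ζe : torsion K × (Fin (rank K) → ℤ)) :
    unitEquiv_P3 K ζe = (ζe.1 : (𝓞 K)ˣ) * ∏ i, (fundSystem K i) ^ (ζe.2 i) := rfl

open scoped Classical in
private lemma logEmb_P3 (ζe : torsion K × (Fin (rank K) → ℤ)) :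
    logEmbedding K (Additive.ofMul (unitEquiv_P3 K ζe)) =
      ∑ i, (ζe.2 i : ℝ) • lB K i := by
  rw [unitEquiv_apply_P3, ofMul_mul, map_add, ofMul_prod, map_sum,
    dirichletUnitTheorem.logEmbedding_eq_zero_iff.mpr ζe.1.2, zero_add]
  refine Finset.sum_congr rfl fun i _ => ?_
  rw [ofMul_zpow, map_zsmul, logEmbedding_fundSystem, lB, Module.Basis.ofZLatticeBasis_apply,
    ← Int.cast_smul_eq_zsmul ℝ]

open scoped Classical in
private lemma psi_unit_P3 (v : mixedSpace K) (hv : mixedEmbedding.norm v ≠ 0)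
    (ζe : torsion K × (Fin (rank K) → ℤ)) :
    psi K (unitEquiv_P3 K ζe • v) =
      ∏ i, chi ((lB K).repr (logMap v) i + (ζe.2 i : ℝ)) := by
  unfold psi
  refine Finset.prod_congr rfl fun i _ => ?_
  congr 1
  rw [logMap_unit_smul _ hv, logEmb_P3, map_add, Finsupp.add_apply, add_comm]
  congr 1
  rw [Module.Basis.repr_sum_self]

end

theorem hP3 : StP3.{u} := by
  classical
  intro hC2 K _ _ v hv
  obtain ⟨hfin, hsum⟩ := hC2 (rank K) (fun i => (lB K).repr (logMap v) i)
  have hfin2 : (Function.support fun ζe : torsion K × (Fin (rank K) → ℤ) =>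
      ∏ i, chi ((lB K).repr (logMap v) i + (ζe.2 i : ℝ))).Finite := by
    refine ((Set.finite_univ (α := torsion K)).prod hfin).subset ?_
    intro ζe h
    exact ⟨Set.mem_univ _, h⟩
  constructor
  · refine (hfin2.image (unitEquiv_P3 K)).subset ?_
    intro u hu
    obtain ⟨ζe, rfl⟩ := (unitEquiv_P3 K).surjective u
    refine ⟨ζe, ?_, rfl⟩
    have hu' : psi K (unitEquiv_P3 K ζe • v) ≠ 0 := hu
    rw [psi_unit_P3 K v hv] at hu'
    exact hu'
  · rw [← (unitEquiv_P3 K).tsum_eq fun u => psi K (u • v)]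
    simp_rw [psi_unit_P3 K v hv]
    rw [Summable.tsum_prod (summable_of_hasFiniteSupport hfin2)]
    simp only [hsum]
    have : Fintype (torsion K) := Fintype.ofFinite _
    rw [tsum_fintype, Finset.sum_const, Finset.card_univ, nsmul_eq_mul, mul_one, torsionOrder,
      Nat.card_eq_fintype_card]

end Pool.Agent.Helper3.SG
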