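import Pool.Agent.Helper3.SG.M_C1

set_option autoImplicit false

namespace Pool.Agent.Helper3.SG

open NumberField NumberField.mixedEmbedding NumberField.Units Filter Topology
open scoped nonZeroDivisors ContDiff

universe u

private theorem hC2_P4 : StC2 := by
  classical
  intro r c
  have h1 := hC1
  obtain ⟨_, _, hfin, hsum⟩ := h1
  let S : Fin r → Finset ℤ := fun i => (hfin (c i)).toFinset
  have hS : ∀ i (n : ℤ), n ∉ S i → chi (c i + n) = 0 := by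
    intro i n hn
    by_contra h
    exact hn ((hfin (c i)).mem_toFinset.2 h)
  have hsupp : ∀ n : Fin r → ℤ, n ∉ Fintype.piFinset S → ∏ i, chi (c i + n i) = 0 := by
    intro n hn
    rw [Fintype.mem_piFinset] at hn
    push Not at hn
    obtain ⟨i, hi⟩ := hn
    exact Finset.prod_eq_zero (Finset.mem_univ i) (hS i _ hi)
  constructor
  · refine (Fintype.piFinset S).finite_toSet.subset ?_
    intro n hn
    by_contra h
    exact hn (hsupp n h)
  · have e1 : ∑ b ∈ Fintype.piFinset S, ∏ i, chi (c i + (b i : ℝ)) =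
        ∏ i, ∑ n ∈ S i, chi (c i + (n : ℝ)) :=
      (Finset.prod_univ_sum S fun i n => chi (c i + (n : ℝ))).symm
    rw [tsum_eq_sum hsupp, e1]
    refine Finset.prod_eq_one fun i _ => ?_
    rw [← hsum (c i), tsum_eq_sum (hS i)]

section

variable {K : Type u} [Field K] [NumberField K]

/-- the norm of the embedding of an integer -/
private theorem norm_emb_P4 (g : 𝓞 K) :
    mixedEmbedding.norm (mixedEmbedding K (g : K)) = (Ideal.absNorm (Ideal.span ({g} : Set (𝓞 K))) : ℝ) := by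
  rw [mixedEmbedding.norm_eq_norm, Ideal.absNorm_span_singleton, ← Algebra.coe_norm_int, Nat.cast_natAbs]
  push_cast
  rfl

private theorem test_zero_P4 {Θ : ℝ → ℝ} (h : Test Θ) : Θ 0 = 0 := by
  by_contra h0
  have h1 : (0 : ℝ) ∈ tsupport Θ := subset_tsupport Θ h0
  exact absurd (h.2.2 h1) (by simp)

private theorem test_bdd_P4 {Θ : ℝ → ℝ} (h : Test Θ) : ∃ B : ℝ, ∀ y, B < y → Θ y = 0 := by
  obtain ⟨B, hB⟩ := h.2.1.isCompact.bddAbove
  refine ⟨B, fun y hy => ?_⟩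
  by_contra h0
  exact absurd (hB (subset_tsupport Θ h0)) (not_le.2 hy)

/-- the type of the principal ideals in `J` -/
private abbrev PT_P4 (J : (Ideal (𝓞 K))⁰) : Type u :=
  {P : (Ideal (𝓞 K))⁰ // (J : Ideal (𝓞 K)) ∣ P ∧ Submodule.IsPrincipal (P : Ideal (𝓞 K))}

open Classical in
/-- a generator -/
private noncomputable def gen_P4 (J : (Ideal (𝓞 K))⁰) (P : PT_P4 J) : 𝓞 K :=
  P.2.2.principal.choose

private theorem span_gen_P4 (J : (Ideal (𝓞 K))⁰) (P : PT_P4 J) :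
    ((P.1 : (Ideal (𝓞 K))⁰) : Ideal (𝓞 K)) = Ideal.span {gen_P4 J P} :=
  P.2.2.principal.choose_spec

private theorem gen_ne_P4 (J : (Ideal (𝓞 K))⁰) (P : PT_P4 J) : gen_P4 J P ≠ 0 := by
  intro h
  have h1 := span_gen_P4 J P
  rw [h, Ideal.span_singleton_eq_bot.2 rfl] at h1
  exact nonZeroDivisors.coe_ne_zero P.1 h1

private theorem mem_gen_P4 (J : (Ideal (𝓞 K))⁰) (P : PT_P4 J) (u : (𝓞 K)ˣ) :
    (u : 𝓞 K) * gen_P4 J P ∈ (J : Ideal (𝓞 K)) := by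
  have h1 : ((P.1 : (Ideal (𝓞 K))⁰) : Ideal (𝓞 K)) ≤ (J : Ideal (𝓞 K)) := Ideal.le_of_dvd P.2.1
  refine Ideal.mul_mem_left _ _ (h1 ?_)
  rw [span_gen_P4 J P]
  exact Ideal.mem_span_singleton_self _

private theorem span_unit_P4 (u : (𝓞 K)ˣ) (g : 𝓞 K) :
    Ideal.span ({(u : 𝓞 K) * g} : Set (𝓞 K)) = Ideal.span {g} := by
  rw [Ideal.span_singleton_eq_span_singleton]
  exact associated_unit_mul_left g u u.isUnit

/-- all elements of `J` with the ideals which they generate -/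
private noncomputable def el_P4 (J : (Ideal (𝓞 K))⁰) (p : PT_P4 J × (𝓞 K)ˣ) : (J : Ideal (𝓞 K)) :=
  ⟨(p.2 : 𝓞 K) * gen_P4 J p.1, mem_gen_P4 J p.1 p.2⟩

private theorem el_inj_P4 (J : (Ideal (𝓞 K))⁰) : Function.Injective (el_P4 J) := by
  rintro ⟨P, u⟩ ⟨Q, v⟩ h
  have h0 : (u : 𝓞 K) * gen_P4 J P = (v : 𝓞 K) * gen_P4 J Q := congrArg Subtype.val h
  have h1 : P = Q := by
    have h2 : ((P.1 : (Ideal (𝓞 K))⁰) : Ideal (𝓞 K)) = ((Q.1 : (Ideal (𝓞 K))⁰) : Ideal (𝓞 K)) := by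
      rw [span_gen_P4 J P, span_gen_P4 J Q, ← span_unit_P4 u, ← span_unit_P4 v (gen_P4 J Q), h0]
    exact Subtype.ext (Subtype.ext h2)
  subst h1
  have h3 : (u : 𝓞 K) = v := mul_right_cancel₀ (gen_ne_P4 J P) h0
  rw [Units.ext h3]

private theorem el_surj_P4 (J : (Ideal (𝓞 K))⁰) (a : (J : Ideal (𝓞 K))) (ha : (a : 𝓞 K) ≠ 0) :
    ∃ p, el_P4 J p = a := by
  have hne : Ideal.span ({(a : 𝓞 K)} : Set (𝓞 K)) ∈ (Ideal (𝓞 K))⁰ :=
    mem_nonZeroDivisors_of_ne_zero (by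
      intro h
      exact ha (Ideal.span_singleton_eq_bot.1 h))
  have hdvd : (J : Ideal (𝓞 K)) ∣ Ideal.span ({(a : 𝓞 K)} : Set (𝓞 K)) := by
    rw [Ideal.dvd_iff_le, Ideal.span_singleton_le_iff_mem]
    exact a.2
  let P : PT_P4 J := ⟨⟨_, hne⟩, hdvd, ⟨⟨(a : 𝓞 K), rfl⟩⟩⟩
  have h1 : Ideal.span ({(a : 𝓞 K)} : Set (𝓞 K)) = Ideal.span {gen_P4 J P} := span_gen_P4 J P
  obtain ⟨u, hu⟩ := Ideal.span_singleton_eq_span_singleton.1 h1.symm
  refine ⟨(P, u), Subtype.ext ?_⟩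
  show (u : 𝓞 K) * gen_P4 J P = a
  rw [mul_comm]
  exact hu

end

theorem hP4 : StP4.{u} := by
  intro h3 K _ _ J Θ hΘ x hx
  set F : 𝓞 K → ℝ := fun a => Θ (mixedEmbedding.norm (mixedEmbedding K (a : K)) / x) *
    psi K (mixedEmbedding K (a : K)) with hF
  have hF0 : F 0 = 0 := by
    have hz : ((0 : 𝓞 K) : K) = 0 := by simp
    simp only [hF]
    rw [hz, map_zero, map_zero, zero_div, test_zero_P4 hΘ, zero_mul]
  -- pull back to the pairs
  have hsum : ∑' a : (J : Ideal (𝓞 K)), F (a : 𝓞 K) = ∑' p, F (el_P4 J p : 𝓞 K) := by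
    refine ((el_inj_P4 J).tsum_eq (f := fun a : (J : Ideal (𝓞 K)) => F (a : 𝓞 K)) ?_).symm
    intro a ha
    have hane : (a : 𝓞 K) ≠ 0 := by
      intro h
      exact ha (by simp only [h, hF0])
    exact el_surj_P4 J a hane
  have hval : ∀ (P : PT_P4 J) (u : (𝓞 K)ˣ), F (el_P4 J (P, u) : 𝓞 K) =
      Θ ((Ideal.absNorm ((P.1 : (Ideal (𝓞 K))⁰) : Ideal (𝓞 K)) : ℝ) / x) *
        psi K (u • mixedEmbedding K (gen_P4 J P : K)) := by
    intro P u
    have e1 : ((el_P4 J (P, u) : 𝓞 K) : K) = (u : K) * (gen_P4 J P : K) := by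
      show (((u : 𝓞 K) * gen_P4 J P : 𝓞 K) : K) = _
      push_cast
      rfl
    have e2 : mixedEmbedding K ((el_P4 J (P, u) : 𝓞 K) : K) = u • mixedEmbedding K (gen_P4 J P : K) := by
      rw [e1, unitSMul_smul, map_mul]
    simp only [hF]
    rw [e2, norm_unit_smul, norm_emb_P4, ← span_gen_P4 J P]
  have hne : ∀ P : PT_P4 J, mixedEmbedding.norm (mixedEmbedding K (gen_P4 J P : K)) ≠ 0 := by
    intro P
    rw [norm_emb_P4, ← span_gen_P4 J P]
    have : Ideal.absNorm ((P.1 : (Ideal (𝓞 K))⁰) : Ideal (𝓞 K)) ≠ 0 := by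
      rw [Ideal.absNorm_ne_zero_iff_mem_nonZeroDivisors]
      exact P.1.2
    exact_mod_cast this
  have h3' := fun P : PT_P4 J => h3 hC2_P4 K (mixedEmbedding K (gen_P4 J P : K)) (hne P)
  -- finiteness
  have hfinP : {P : PT_P4 J | Θ ((Ideal.absNorm ((P.1 : (Ideal (𝓞 K))⁰) : Ideal (𝓞 K)) : ℝ) / x) ≠ 0}.Finite := by
    obtain ⟨B, hB⟩ := test_bdd_P4 hΘ
    have hf := Ideal.finite_setOfPred_absNorm_le₀ (S := 𝓞 K) (⌊B * x⌋₊)
    refine Set.Finite.subset (hf.preimage (f := fun P : PT_P4 J => P.1)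
      (Subtype.val_injective.injOn)) ?_
    intro P hP
    show Ideal.absNorm ((P.1 : (Ideal (𝓞 K))⁰) : Ideal (𝓞 K)) ≤ ⌊B * x⌋₊
    have h1 : (Ideal.absNorm ((P.1 : (Ideal (𝓞 K))⁰) : Ideal (𝓞 K)) : ℝ) / x ≤ B := by
      by_contra hcon
      exact hP (hB _ (not_le.1 hcon))
    rw [div_le_iff₀ hx] at h1
    exact Nat.le_floor h1
  have hfin : (Function.support fun p : PT_P4 J × (𝓞 K)ˣ => F (el_P4 J p : 𝓞 K)).Finite := by
    refine Set.Finite.subset (s := ⋃ P ∈ {P : PT_P4 J |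
        Θ ((Ideal.absNorm ((P.1 : (Ideal (𝓞 K))⁰) : Ideal (𝓞 K)) : ℝ) / x) ≠ 0},
        (fun u => (P, u)) '' {u : (𝓞 K)ˣ | psi K (u • mixedEmbedding K (gen_P4 J P : K)) ≠ 0})
      (hfinP.biUnion fun P _ => (h3' P).1.image _) ?_
    rintro ⟨P, u⟩ hp
    have hp' : F (el_P4 J (P, u) : 𝓞 K) ≠ 0 := hp
    rw [hval] at hp'
    simp only [Set.mem_iUnion]
    exact ⟨P, left_ne_zero_of_mul hp', ⟨u, right_ne_zero_of_mul hp', rfl⟩⟩
  have hsummable : Summable fun p : PT_P4 J × (𝓞 K)ˣ => F (el_P4 J p : 𝓞 K) :=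
    summable_of_hasFiniteSupport hfin
  rw [hsum, hsummable.tsum_prod, ← tsum_mul_left]
  refine tsum_congr fun P => ?_
  rw [tsum_congr (hval P), tsum_mul_left, (h3' P).2, mul_comm]

end Pool.Agent.Helper3.SG
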