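import Pool.Agent.Helper3.SG.St

set_option autoImplicit false

namespace Pool.Agent.Helper3.SG

open NumberField NumberField.mixedEmbedding Module
open scoped nonZeroDivisors

theorem hP5 : StP5 := by
  intro K _ _ J
  classical
  set I : (FractionalIdeal (𝓞 K)⁰ K)ˣ := FractionalIdeal.mk0 K J with hI
  let B := fractionalIdealLatticeBasis K I
  have hmem : ∀ y : K, y ∈ (I : Set K) ↔ ∃ a : (J : Ideal (𝓞 K)), ((a : 𝓞 K) : K) = y := by
    intro y
    rw [hI]
    simp only [FractionalIdeal.coe_mk0, SetLike.mem_coe]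
    constructor
    · rintro h
      obtain ⟨a, ha, h⟩ := (FractionalIdeal.mem_coeIdeal _).mp h
      exact ⟨⟨a, ha⟩, h⟩
    · rintro ⟨a, rfl⟩
      exact (FractionalIdeal.mem_coeIdeal _).mpr ⟨a.1, a.2, rfl⟩
  have hcard : Fintype.card (Free.ChooseBasisIndex ℤ I) = finrank ℚ K := by
    rw [← mixedEmbedding.finrank K, finrank_eq_card_basis B]
  let ε : Free.ChooseBasisIndex ℤ I ≃ Fin (finrank ℚ K) := Fintype.equivFinOfCardEq hcard
  let b := B.reindex ε
  have hb : ∀ i, b i = mixedEmbedding K (basisOfFractionalIdeal K I (ε.symm i)) := by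
    intro i
    simp only [b, B, Basis.reindex_apply, fractionalIdealLatticeBasis_apply]
  have hc : ∀ i, ∃ a : (J : Ideal (𝓞 K)), ((a : 𝓞 K) : K) =
      basisOfFractionalIdeal K I (ε.symm i) := by
    intro i
    rw [← hmem, ← mem_span_basisOfFractionalIdeal]
    exact Submodule.subset_span ⟨_, rfl⟩
  choose a ha using hc
  let f : (Fin (finrank ℚ K) → ℤ) → (J : Ideal (𝓞 K)) := fun n => ∑ i, n i • a i
  have hf : ∀ n, mixedEmbedding K ((f n : 𝓞 K) : K) = ∑ i, (n i : ℝ) • b i := by
    intro n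
    simp only [f, hb, ← ha]
    push_cast
    rw [map_sum]
    refine Finset.sum_congr rfl fun i _ => ?_
    rw [map_zsmul, Int.cast_smul_eq_zsmul ℝ]
  have hinj : Function.Injective f := by
    intro n m h
    have h1 := hf n
    rw [h, hf m] at h1
    have h2 := b.linearIndependent
    have h3 : ∑ i, ((n i : ℝ) - (m i : ℝ)) • b i = 0 := by
      simp only [sub_smul, Finset.sum_sub_distrib]
      rw [h1, sub_self]
    have h4 := Fintype.linearIndependent_iff.mp h2 _ h3
    funext i
    have := h4 i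
    have h5 : (n i : ℝ) = (m i : ℝ) := by linarith
    exact_mod_cast h5
  have hsurj : Function.Surjective f := by
    intro x
    have h1 : mixedEmbedding K ((x : 𝓞 K) : K) ∈ Submodule.span ℤ (Set.range B) := by
      rw [mem_span_fractionalIdealLatticeBasis]
      exact ⟨_, (hmem _).mpr ⟨x, rfl⟩, rfl⟩
    obtain ⟨c, hc⟩ := (Submodule.mem_span_range_iff_exists_fun ℤ).mp h1
    refine ⟨fun i => c (ε.symm i), ?_⟩
    have h2 : mixedEmbedding K ((f (fun i => c (ε.symm i)) : 𝓞 K) : K) =
        mixedEmbedding K ((x : 𝓞 K) : K) := by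
      rw [hf, ← hc]
      rw [← Equiv.sum_comp ε]
      refine Finset.sum_congr rfl fun i _ => ?_
      simp only [Equiv.symm_apply_apply, b, Basis.reindex_apply]
      rw [Int.cast_smul_eq_zsmul ℝ]
    have h3 := mixedEmbedding_injective K h2
    have h4 : (f (fun i => c (ε.symm i)) : 𝓞 K) = (x : 𝓞 K) := RingOfIntegers.coe_injective h3
    exact Subtype.ext h4
  exact ⟨b, Equiv.ofBijective f ⟨hinj, hsurj⟩, fun n => hf n⟩

end Pool.Agent.Helper3.SG
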