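import Pool.Agent.Helper3.SG.St

set_option autoImplicit false

namespace Pool.Agent.Helper3.SG

open NumberField NumberField.mixedEmbedding NumberField.Units Module
open scoped nonZeroDivisors

universe u

theorem hP6 : StP6.{u} := by
  intro hL4 hP1 hP2 hP4 hP3 hP5 hC1 K _ _ J Θ hΘ
  classical
  set d := finrank ℚ K with hd
  have hd0 : 0 < d := finrank_pos
  obtain ⟨b, e, he⟩ := hP5 K J
  obtain ⟨hs, hc⟩ := hP1 hC1 K Θ hΘ
  obtain ⟨M, hM⟩ := hL4 (mixedSpace K) d b (Phi K Θ) hs hc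
  obtain ⟨C, hC⟩ := hM (2 * d)
  have hT : (0 : ℝ) < (torsionOrder K : ℝ) := by
    exact_mod_cast torsionOrder_pos K
  refine ⟨M / torsionOrder K, C / torsionOrder K, fun x hx => ?_⟩
  have hx0 : 0 < x := by linarith
  set R : ℝ := x ^ ((1 : ℝ) / d) with hR
  have hR1 : 1 ≤ R := Real.one_le_rpow hx (by positivity)
  have hR0 : 0 < R := by linarith
  have hRd : R ^ d = x := by
    rw [hR, ← Real.rpow_natCast, ← Real.rpow_mul hx0.le, one_div,
      inv_mul_cancel₀ (by positivity), Real.rpow_one]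
  have h1 := hC R hR1
  have h2 : ∑' n : Fin d → ℤ, Phi K Θ (R⁻¹ • ∑ i, (n i : ℝ) • b i) =
      ∑' a : (J : Ideal (𝓞 K)), Θ (mixedEmbedding.norm (mixedEmbedding K ((a : 𝓞 K) : K)) / x) *
        psi K (mixedEmbedding K ((a : 𝓞 K) : K)) := by
    rw [← Equiv.tsum_eq e]
    refine tsum_congr fun n => ?_
    have h5 := hP2 K Θ hΘ R hR0 (∑ i, (n i : ℝ) • b i)
    have h6 : R ^ finrank ℚ K = x := hRd
    rw [h6] at h5
    rw [he n, ← h5]
  rw [h2, hP4 hP3 K J Θ hΘ x hx0, hRd, pow_mul', hRd] at h1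
  have h3 : ∀ S : ℝ, |(torsionOrder K : ℝ) * S - M * x| ≤ C / x ^ 2 →
      |S - M / torsionOrder K * x| ≤ C / torsionOrder K / x ^ 2 := by
    intro S hS
    have h4 : S - M / torsionOrder K * x = ((torsionOrder K : ℝ) * S - M * x) / torsionOrder K := by
      field_simp
    rw [h4, abs_div, abs_of_pos hT, div_div, mul_comm (torsionOrder K : ℝ) (x ^ 2), ← div_div]
    gcongr
  exact h3 _ h1

end Pool.Agent.Helper3.SG
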