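import Pool.Agent.Helper3.SG.St

/-!
# SG module P7: smooth counting of all ideals from the principal ones
-/

set_option autoImplicit false

namespace Pool.Agent.Helper3.SG

open NumberField NumberField.mixedEmbedding NumberField.Units Filter Topology
open scoped nonZeroDivisors ContDiff

universe u

/-- multiplication by an ideal of the inverse class -/
private noncomputable def eqv_P7 (K : Type u) [Field K] [NumberField K] (C : ClassGroup (𝓞 K))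
    (J : (Ideal (𝓞 K))⁰) (hJ : ClassGroup.mk0 J = C⁻¹) :
    {I : (Ideal (𝓞 K))⁰ // ClassGroup.mk0 I = C} ≃
      {P : (Ideal (𝓞 K))⁰ // (J : Ideal (𝓞 K)) ∣ P ∧
        Submodule.IsPrincipal (P : Ideal (𝓞 K))} :=
  Equiv.ofBijective
    (fun I => ⟨J * I.1, by
      refine ⟨⟨(I.1 : Ideal (𝓞 K)), by rw [Submonoid.coe_mul]⟩, ?_⟩
      rw [← ClassGroup.mk0_eq_one_iff (SetLike.coe_mem _)]
      show ClassGroup.mk0 (J * I.1) = 1
      rw [map_mul, hJ, I.2, inv_mul_cancel]⟩) (by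
    constructor
    · intro I I' h
      have h1 : J * I.1 = J * I'.1 := congrArg Subtype.val h
      have h2 : (J : Ideal (𝓞 K)) * (I.1 : Ideal (𝓞 K)) = (J : Ideal (𝓞 K)) * (I'.1 : Ideal (𝓞 K)) := by
        have := congrArg (fun z : (Ideal (𝓞 K))⁰ => (z : Ideal (𝓞 K))) h1
        simpa only [Submonoid.coe_mul] using this
      have h3 : (J : Ideal (𝓞 K)) ≠ 0 := nonZeroDivisors.coe_ne_zero J
      exact Subtype.ext (Subtype.ext (mul_left_cancel₀ h3 h2))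
    · rintro ⟨P, ⟨Q, hQ⟩, hP⟩
      have hP0 : (P : Ideal (𝓞 K)) ≠ 0 := nonZeroDivisors.coe_ne_zero P
      have hQ0 : Q ≠ 0 := by
        rintro rfl
        rw [mul_zero] at hQ
        exact hP0 hQ
      have hQm : Q ∈ (Ideal (𝓞 K))⁰ := mem_nonZeroDivisors_of_ne_zero hQ0
      have hPQ : P = J * ⟨Q, hQm⟩ := Subtype.ext hQ
      refine ⟨⟨⟨Q, hQm⟩, ?_⟩, ?_⟩
      · have h1 : ClassGroup.mk0 P = 1 := by
          rw [← ClassGroup.mk0_eq_one_iff (SetLike.coe_mem P)] at hP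
          exact hP
        rw [hPQ, map_mul, hJ] at h1
        exact (inv_mul_eq_one.mp h1).symm
      · exact Subtype.ext hPQ.symm)

private lemma eqv_norm_P7 (K : Type u) [Field K] [NumberField K] (C : ClassGroup (𝓞 K))
    (J : (Ideal (𝓞 K))⁰) (hJ : ClassGroup.mk0 J = C⁻¹)
    (I : {I : (Ideal (𝓞 K))⁰ // ClassGroup.mk0 I = C}) :
    Ideal.absNorm (((eqv_P7 K C J hJ I).1 : (Ideal (𝓞 K))⁰) : Ideal (𝓞 K)) =
      Ideal.absNorm (J : Ideal (𝓞 K)) * Ideal.absNorm ((I.1 : (Ideal (𝓞 K))⁰) : Ideal (𝓞 K)) := by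
  show Ideal.absNorm ((J * I.1 : (Ideal (𝓞 K))⁰) : Ideal (𝓞 K)) = _
  rw [Submonoid.coe_mul, map_mul]

private lemma finite_P7 (K : Type u) [Field K] [NumberField K] (Θ : ℝ → ℝ) (hΘ : Test Θ) (x : ℝ)
    (hx : 1 ≤ x) :
    (Function.support (fun I : (Ideal (𝓞 K))⁰ =>
      Θ ((Ideal.absNorm (I : Ideal (𝓞 K)) : ℝ) / x))).Finite := by
  obtain ⟨b, hb⟩ := hΘ.2.1.isCompact.isBounded.subset_closedBall (0 : ℝ)
  have hfin : {I : (Ideal (𝓞 K))⁰ | Ideal.absNorm (I : Ideal (𝓞 K)) ≤ ⌊b * x⌋₊}.Finite :=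
    Ideal.finite_setOfPred_absNorm_le₀ ⌊b * x⌋₊
  refine hfin.subset ?_
  intro I hI
  have h1 : ((Ideal.absNorm (I : Ideal (𝓞 K)) : ℝ) / x) ∈ tsupport Θ := subset_tsupport _ hI
  have h2 := hb h1
  rw [Metric.mem_closedBall, dist_zero_right, Real.norm_eq_abs] at h2
  have h3 := (le_abs_self _).trans h2
  have hx0 : 0 < x := by linarith
  rw [div_le_iff₀ hx0] at h3
  show Ideal.absNorm (I : Ideal (𝓞 K)) ≤ ⌊b * x⌋₊
  exact Nat.le_floor h3

theorem hP7 : StP7.{u} := by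
  intro h6 K _ _ Θ hΘ
  classical
  have hJ : ∀ C : ClassGroup (𝓞 K), ∃ J : (Ideal (𝓞 K))⁰, ClassGroup.mk0 J = C⁻¹ :=
    fun C => ClassGroup.mk0_surjective C⁻¹
  choose J hJ using hJ
  have h6' := fun C : ClassGroup (𝓞 K) => h6 K (J C) Θ hΘ
  choose M B hMB using h6'
  refine ⟨∑ C, M C * (Ideal.absNorm (J C : Ideal (𝓞 K)) : ℝ), ∑ C, |B C|, ?_⟩
  intro x hx
  have hx0 : 0 < x := by linarith
  have hsupp := finite_P7 K Θ hΘ x hx
  have hsum : Summable (fun I : (Ideal (𝓞 K))⁰ =>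
      Θ ((Ideal.absNorm (I : Ideal (𝓞 K)) : ℝ) / x)) := summable_of_hasFiniteSupport hsupp
  have hdec : ∑' I : (Ideal (𝓞 K))⁰, Θ ((Ideal.absNorm (I : Ideal (𝓞 K)) : ℝ) / x) =
      ∑ C : ClassGroup (𝓞 K), ∑' I : {I : (Ideal (𝓞 K))⁰ // ClassGroup.mk0 I = C},
        Θ ((Ideal.absNorm ((I.1 : (Ideal (𝓞 K))⁰) : Ideal (𝓞 K)) : ℝ) / x) := by
    let e := Equiv.sigmaFiberEquiv (fun I : (Ideal (𝓞 K))⁰ => ClassGroup.mk0 I)
    rw [← e.tsum_eq]
    have hs2 : Summable (fun c : (Σ C : ClassGroup (𝓞 K),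
        {I : (Ideal (𝓞 K))⁰ // ClassGroup.mk0 I = C}) =>
        Θ ((Ideal.absNorm ((e c : (Ideal (𝓞 K))⁰) : Ideal (𝓞 K)) : ℝ) / x)) :=
      e.summable_iff.mpr hsum
    rw [hs2.tsum_sigma, tsum_fintype]
    rfl
  rw [hdec, Finset.sum_mul, ← Finset.sum_sub_distrib, Finset.sum_div]
  refine (Finset.abs_sum_le_sum_abs _ _).trans (Finset.sum_le_sum fun C _ => ?_)
  set NJ : ℝ := (Ideal.absNorm (J C : Ideal (𝓞 K)) : ℝ) with hNJ
  have hNJ1 : 1 ≤ NJ := by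
    rw [hNJ]
    have := Ideal.absNorm_pos_of_nonZeroDivisors (J C)
    exact_mod_cast this
  have hNJ0 : 0 < NJ := by linarith
  have h1 := hMB C (NJ * x) (by nlinarith)
  have h2 : ∑' P : {P : (Ideal (𝓞 K))⁰ // (J C : Ideal (𝓞 K)) ∣ P ∧
        Submodule.IsPrincipal (P : Ideal (𝓞 K))},
          Θ ((Ideal.absNorm ((P : (Ideal (𝓞 K))⁰) : Ideal (𝓞 K)) : ℝ) / (NJ * x)) =
      ∑' I : {I : (Ideal (𝓞 K))⁰ // ClassGroup.mk0 I = C},
        Θ ((Ideal.absNorm ((I.1 : (Ideal (𝓞 K))⁰) : Ideal (𝓞 K)) : ℝ) / x) := by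
    rw [← (eqv_P7 K C (J C) (hJ C)).tsum_eq]
    refine tsum_congr fun I => ?_
    rw [eqv_norm_P7]
    congr 1
    push_cast
    rw [← hNJ]
    field_simp
  rw [h2] at h1
  have h3 : M C * (NJ * x) = M C * NJ * x := by ring
  rw [h3] at h1
  refine h1.trans ?_
  calc B C / (NJ * x) ^ 2 ≤ |B C| / (NJ * x) ^ 2 := by
        gcongr
        exact le_abs_self _
    _ ≤ |B C| / x ^ 2 := by
        gcongr
        nlinarith

end Pool.Agent.Helper3.SG
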