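import Pool.Agent.Helper3.SG.M_L1
import Pool.Agent.Helper3.SG.M_L2
import Pool.Agent.Helper3.SG.M_L3
import Pool.Agent.Helper3.SG.M_L4
import Pool.Agent.Helper3.SG.M_C1
import Pool.Agent.Helper3.SG.M_C2
import Pool.Agent.Helper3.SG.M_P1
import Pool.Agent.Helper3.SG.M_P2
import Pool.Agent.Helper3.SG.M_P3
import Pool.Agent.Helper3.SG.M_P4
import Pool.Agent.Helper3.SG.M_P5
import Pool.Agent.Helper3.SG.M_P6
import Pool.Agent.Helper3.SG.M_P7
import Pool.Agent.Helper3.SG.M_A1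
import Pool.Agent.Helper3.SG.M_A2
import Pool.Agent.Helper3.SG.M_A3
import Pool.Agent.Helper3.SG.M_A4
import Pool.Agent.Helper3.SG.M_A5
import Pool.Agent.Helper3.SG.M_G0
import Pool.Agent.Helper3.SG.M_G1
import Pool.Agent.Helper3.SG.M_G2

/-!
# SG: all modules together
-/

set_option autoImplicit false

namespace Pool.Agent.Helper3.SG

universe u

theorem a_L4 : StL4.{u} := hL4 (hL3 (hL2 hL1))

theorem a_P6' : StP6'.{u} := hP6 a_L4 hP1 hP2 hP4 hP3 hP5 hC1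

theorem a_A2' : StA2'.{u} := hA2 hA1 hP7 a_P6'

theorem a_A4' : StA4'.{u} := hA4 hA1 a_A2'

theorem a_A5' : StA5'.{u} := hA5 hA3 a_A4'

theorem a_G0 : StG0'.{u} := hG0 a_A5'

theorem a_G1 : StG1'.{u} := hG1 a_G0

theorem a_G2 (K : Type u) [Field K] [NumberField K] (E : Finset (Ideal (NumberField.RingOfIntegers K)))
    (hE : CF.IsE2 E) (h3 : 3 ≤ E.card) (H : Finset (Finset (Ideal (NumberField.RingOfIntegers K))))
    (hH : CF.MaxI E H) : ∃ H' : Finset (Finset (Ideal (NumberField.RingOfIntegers K))),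
      CF.MaxI E H' ∧ ∀ N : ℕ, ∃ n : ℕ, N ≤ n ∧ (CF.fam E H n).card < (CF.fam E H' n).card :=
  hG2 a_G1 K E hE h3 H hH

end Pool.Agent.Helper3.SG
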