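import Pool.Agent.Helper3.SG.St

set_option autoImplicit false

namespace Pool.Agent.Helper3.SG

open NumberField MeasureTheory
open scoped nonZeroDivisors ContDiff

universe u

/-- One term: `Ψ t = - ∫_0^b 1_{t ≤ u} Ψ'(u) du`. -/
private theorem term_A1 (Ψ : ℝ → ℝ) (b t : ℝ) (h : ContDiff ℝ ∞ Ψ) (hb : 0 < b)
    (hz : ∀ s, b ≤ s → Ψ s = 0) (ht : 0 ≤ t) :
    Ψ t = -∫ u in (0 : ℝ)..b, (if t ≤ u then 1 else 0) * deriv Ψ u := by
  have hd : Differentiable ℝ Ψ := h.differentiable (by simp)
  have hc : Continuous (deriv Ψ) := h.continuous_deriv (by simp)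
  rcases le_or_gt b t with hbt | htb
  · rw [hz t hbt]
    have : ∫ u in (0 : ℝ)..b, (if t ≤ u then (1 : ℝ) else 0) * deriv Ψ u = 0 := by
      apply intervalIntegral.integral_zero_ae
      have h1 : ∀ᵐ u : ℝ, u ≠ b := by
        simp [ae_iff, measure_singleton]
      filter_upwards [h1] with u hu hmem
      rw [Set.uIoc_of_le hb.le] at hmem
      have : ¬ t ≤ u := by
        intro hh
        exact hu (le_antisymm hmem.2 (hbt.trans hh))
      simp [this]
    rw [this]; simp
  · have e : ∫ u in (0 : ℝ)..b, (if t ≤ u then (1 : ℝ) else 0) * deriv Ψ u =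
        ∫ u in t..b, deriv Ψ u := by
      have i1 : IntervalIntegrable (fun u => (if t ≤ u then (1 : ℝ) else 0) * deriv Ψ u) volume 0 t := by
        apply IntervalIntegrable.congr_ae (f := fun _ => (0 : ℝ)) intervalIntegrable_const
        rw [Set.uIoc_of_le ht]
        have h1 : ∀ᵐ u : ℝ, u ≠ t := by
          simp [ae_iff, measure_singleton]
        rw [Filter.EventuallyEq, ae_restrict_iff' measurableSet_Ioc]
        filter_upwards [h1] with u hu hmem
        have : ¬ t ≤ u := by
          intro hh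
          exact hu (le_antisymm hmem.2 hh)
        simp [this]
      have i2 : IntervalIntegrable (fun u => (if t ≤ u then (1 : ℝ) else 0) * deriv Ψ u) volume t b := by
        apply IntervalIntegrable.congr (f := deriv Ψ) (fun u hu => ?_) (hc.intervalIntegrable _ _)
        rw [Set.uIoc_of_le htb.le] at hu
        simp [hu.1.le]
      rw [← intervalIntegral.integral_add_adjacent_intervals i1 i2]
      have z1 : ∫ u in (0 : ℝ)..t, (if t ≤ u then (1 : ℝ) else 0) * deriv Ψ u = 0 := by
        apply intervalIntegral.integral_zero_ae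
        have h1 : ∀ᵐ u : ℝ, u ≠ t := by
          simp [ae_iff, measure_singleton]
        filter_upwards [h1] with u hu hmem
        rw [Set.uIoc_of_le ht] at hmem
        have : ¬ t ≤ u := by
          intro hh
          exact hu (le_antisymm hmem.2 hh)
        simp [this]
      rw [z1, zero_add]
      apply intervalIntegral.integral_congr_ae
      filter_upwards with u hmem
      rw [Set.uIoc_of_le htb.le] at hmem
      simp [hmem.1.le]
    rw [e, intervalIntegral.integral_deriv_eq_sub (fun x _ => hd x) (hc.intervalIntegrable _ _),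
      hz b le_rfl]
    ring

private theorem int_A1 (Ψ : ℝ → ℝ) (b t : ℝ) (h : ContDiff ℝ ∞ Ψ) (hb : 0 < b) :
    IntervalIntegrable (fun u => (if t ≤ u then (1 : ℝ) else 0) * deriv Ψ u) volume 0 b := by
  have hc : Continuous (deriv Ψ) := h.continuous_deriv (by simp)
  have hi := (hc.intervalIntegrable (μ := volume) 0 b)
  rw [intervalIntegrable_iff_integrableOn_Ioc_of_le hb.le] at hi ⊢
  have : (fun u => (if t ≤ u then (1 : ℝ) else 0) * deriv Ψ u) = Set.indicator (Set.Ici t) (deriv Ψ) := by
    ext u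
    by_cases hu : t ≤ u <;> simp [hu]
  rw [this]
  exact hi.indicator measurableSet_Ici

theorem hA1 : StA1.{u} := by
  intro K _ _ Ψ b hΨ hb hz x hx
  classical
  -- the finite set of ideals of norm at most b x
  set F : Set (Ideal (𝓞 K))⁰ := {I | (Ideal.absNorm (I : Ideal (𝓞 K)) : ℝ) ≤ b * x} with hF
  have hFf : F.Finite := by
    have := Ideal.finite_setOfPred_absNorm_le₀ (S := 𝓞 K) ⌊b * x⌋₊
    refine this.subset ?_
    intro I hI
    have : (Ideal.absNorm (I : Ideal (𝓞 K)) : ℝ) ≤ b * x := hI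
    exact Nat.le_floor this
  have h1 : ∑' I : (Ideal (𝓞 K))⁰, Ψ ((Ideal.absNorm (I : Ideal (𝓞 K)) : ℝ) / x) =
      ∑ I ∈ hFf.toFinset, Ψ ((Ideal.absNorm (I : Ideal (𝓞 K)) : ℝ) / x) := by
    apply tsum_eq_sum
    intro I hI
    apply hz
    rw [Set.Finite.mem_toFinset] at hI
    have : b * x < (Ideal.absNorm (I : Ideal (𝓞 K)) : ℝ) := not_le.mp hI
    rw [le_div_iff₀ hx]
    exact this.le
  rw [h1]
  have h2 : ∀ I ∈ hFf.toFinset, Ψ ((Ideal.absNorm (I : Ideal (𝓞 K)) : ℝ) / x) =
      -∫ u in (0 : ℝ)..b, (if (Ideal.absNorm (I : Ideal (𝓞 K)) : ℝ) / x ≤ u then 1 else 0) * deriv Ψ u := by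
    intro I _
    exact term_A1 Ψ b _ hΨ hb hz (by positivity)
  rw [Finset.sum_congr rfl h2, Finset.sum_neg_distrib, ← intervalIntegral.integral_finsetSum]
  · congr 1
    apply intervalIntegral.integral_congr_ae
    filter_upwards with u hu
    rw [Set.uIoc_of_le hb.le] at hu
    rw [← Finset.sum_mul]
    congr 1
    rw [Finset.sum_ite]
    simp only [Finset.sum_const_zero, add_zero, Finset.sum_const, nsmul_eq_mul, mul_one]
    unfold JJ
    congr 1
    rw [Nat.subtype_card]
    intro I
    rw [Finset.mem_filter, Set.Finite.mem_toFinset]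
    constructor
    · intro hI
      have h3 := hI.2
      rw [div_le_iff₀ hx] at h3
      linarith [mul_comm u x]
    · intro hI
      refine ⟨?_, ?_⟩
      · show (Ideal.absNorm (I : Ideal (𝓞 K)) : ℝ) ≤ b * x
        nlinarith [mul_le_mul_of_nonneg_left hu.2 hx.le, mul_comm b x]
      · rw [div_le_iff₀ hx]
        linarith [mul_comm u x]
  · intro I _
    exact int_A1 Ψ b _ hΨ hb

end Pool.Agent.Helper3.SG
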