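import Pool.Agent.Helper3.SG.St

set_option autoImplicit false

namespace Pool.Agent.Helper3.SG

open scoped ContDiff

private theorem per_int_L1 (g : ℝ → ℝ) (hp : ∀ t, g (t + 1) = g t) (n : ℤ) (t : ℝ) :
    g (t + n) = g t := by
  have h : Function.Periodic g 1 := hp
  have := h.int_mul n t
  simpa using this

private theorem base_L1 (g : ℝ → ℝ) (B : ℝ) (hg : ContDiff ℝ ∞ g) (hp : ∀ t, g (t + 1) = g t)
    (hB : ∀ t, |deriv g t| ≤ B) : ∀ s t, |g s - g t| ≤ B := by
  intro s t
  have hB0 : 0 ≤ B := le_trans (abs_nonneg _) (hB 0)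
  have hd : Differentiable ℝ g := hg.differentiable (by simp)
  have h1 : g s = g (t + Int.fract (s - t)) := by
    have h2 : t + Int.fract (s - t) = s + ((-⌊s - t⌋ : ℤ) : ℝ) := by
      rw [Int.fract]
      push_cast
      ring
    rw [h2, per_int_L1 g hp]
  have h3 : ‖g (t + Int.fract (s - t)) - g t‖ ≤ B * ‖(t + Int.fract (s - t)) - t‖ :=
    Convex.norm_image_sub_le_of_norm_deriv_le (s := Set.univ) (fun x _ => hd x)
      (fun x _ => hB x) convex_univ (Set.mem_univ _) (Set.mem_univ _)
  rw [h1]
  have h4 : ‖(t + Int.fract (s - t)) - t‖ ≤ 1 := by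
    rw [add_sub_cancel_left, Real.norm_eq_abs, abs_of_nonneg (Int.fract_nonneg _)]
    exact (Int.fract_lt_one _).le
  rw [Real.norm_eq_abs] at h3
  calc _ ≤ _ := h3
    _ ≤ B * 1 := mul_le_mul_of_nonneg_left h4 hB0
    _ = B := mul_one B

theorem hL1 : StL1 := by
  intro k
  induction k with
  | zero =>
    intro g B h
    omega
  | succ k ih =>
    intro g B _ hg hp hB
    rcases Nat.eq_zero_or_pos k with rfl | hk
    · refine base_L1 g B hg hp fun t => ?_
      have := hB t
      rwa [zero_add, iteratedDeriv_one] at this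
    · have hg' : ContDiff ℝ ∞ (deriv g) := by
        have h := (contDiff_infty_iff_deriv.1 hg).2
        exact h
      have hp' : ∀ t, deriv g (t + 1) = deriv g t := by
        intro t
        have h1 : (fun x => g (x + 1)) = g := funext hp
        have h2 : deriv (fun x => g (x + 1)) t = deriv g (t + 1) := deriv_comp_add_const g 1 t
        rw [← h2, h1]
      have hB' : ∀ t, |iteratedDeriv k (deriv g) t| ≤ B := by
        intro t
        rw [← iteratedDeriv_succ']
        exact hB t
      have h3 := ih (deriv g) B hk hg' hp' hB'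
      have hcont : Continuous g := hg.continuous
      obtain ⟨c, _, hc⟩ := exists_deriv_eq_zero (f := g) (a := 0) (b := 1) (by norm_num)
        hcont.continuousOn (by simpa using (hp 0).symm)
      refine base_L1 g B hg hp fun t => ?_
      have := h3 t c
      rwa [hc, sub_zero] at this

end Pool.Agent.Helper3.SG
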