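import Mathlib

/-!
# SG: smooth ideal counting and sign changes (statements)

`J(y)` is the number of nonzero ideals of `𝓞 K` of norm at most `y`.  Goal: for integers `c_j`, not all
zero, with `∑ c_j = 0` and `∑ c_j 2^(-j) = 0` the function `∑ c_j J(x / 2^j)` takes positive and negative
values for arbitrarily large `x`, for every number field `K`.  Tool: for a smooth function `Θ` with compact
support in `(0, ∞)` and `∫ Θ = 0` the sum `∑_I Θ(N(I) / x)` is `O(x^(-2))` (no zeta functions: a smooth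
partition of unity for the action of the units and smooth lattice point counting).
-/

set_option autoImplicit false

namespace Pool.Agent.Helper3.SG

open NumberField NumberField.mixedEmbedding NumberField.Units Filter Topology
open scoped nonZeroDivisors ContDiff

universe u

/-- Smooth functions with compact support in `(0, ∞)`. -/
def Test (Θ : ℝ → ℝ) : Prop := ContDiff ℝ ∞ Θ ∧ HasCompactSupport Θ ∧ tsupport Θ ⊆ Set.Ioi 0

/-! ### Lattice points -/

/-- L1 (periodic functions).  Induction on `k`.  `k = 1`: by periodicity one may assume `|s - t| ≤ 1`; mean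
value inequality.  Step: `g'` is periodic, so by induction it oscillates by at most `B`, and `g'` has a zero
(Rolle, `g 0 = g 1`), so `|g'| ≤ B` and the case `k = 1` applies. -/
def StL1 : Prop :=
  ∀ (k : ℕ) (g : ℝ → ℝ) (B : ℝ), 1 ≤ k → ContDiff ℝ ∞ g → (∀ t, g (t + 1) = g t) →
    (∀ t, |iteratedDeriv k g t| ≤ B) → ∀ s t, |g s - g t| ≤ B

/-- L2 (shifted lattice sums).  Change the coordinates of `t` to `0` one at a time.  For one coordinate `j` (the
others fixed) the function `g(s) = ∑_n F((n + t[j := s]) / R)` is smooth (locally finite sum), periodic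
with period 1 (shift `n_j`), and `g^(k)(s) = R^(-k) ∑_n (∂_j^k F)(..)`; if `F` vanishes outside
`[-A, A]^d` at most `(2 A R + 1)^d ≤ ((2 A + 1) R)^d` terms are not zero.  L1.  (It may be convenient to write
`g` on `[-1, 2]` as a sum over the finite set of the `n` with `|n_i| ≤ A R + |t_i| + 3`.) -/
def StL2 : Prop :=
  ∀ (d : ℕ) (F : (Fin d → ℝ) → ℝ), ContDiff ℝ ∞ F → HasCompactSupport F → ∀ k : ℕ, 1 ≤ k →
    ∃ C : ℝ, ∀ R : ℝ, 1 ≤ R → ∀ t : Fin d → ℝ,
      |∑' n : Fin d → ℤ, F (fun i => ((n i : ℝ) + t i) / R) -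
        ∑' n : Fin d → ℤ, F (fun i => (n i : ℝ) / R)| ≤ C * R ^ d / R ^ k

/-- L3 (smooth lattice point counting).  For an integer `m ≥ 1` the lattice `m⁻¹ ℤ^d` is the union of the
`m^d` translates `a / m + ℤ^d`, `a ∈ {0, .., m-1}^d`, so by L2
`|m^(-d) ∑_(y ∈ ℤ^d) F(y / (m R)) - ∑_(n ∈ ℤ^d) F(n / R)| ≤ C R^d / R^(k+d)`.  For `m → ∞` the first term tends
to `∫ F(y / R) dy = R^d ∫ F` (`tendsto_tsum_div_pow_atTop_integral` for the continuous function
`y ↦ F(y / R)` and a box containing its support; the sum over `s ∩ m⁻¹ • L` is the sum over `ℤ^d`). -/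
def StL3 : Prop :=
  ∀ (d : ℕ) (F : (Fin d → ℝ) → ℝ), ContDiff ℝ ∞ F → HasCompactSupport F → ∀ k : ℕ,
    ∃ C : ℝ, ∀ R : ℝ, 1 ≤ R →
      |∑' n : Fin d → ℤ, F (fun i => (n i : ℝ) / R) - R ^ d * ∫ y, F y| ≤ C / R ^ k

/-- L4 (general lattices).  L3 for `F(y) = Φ(∑ y_i b_i)`, which is smooth with compact support (`b` gives a
linear homeomorphism). -/
def StL4 : Prop :=
  ∀ (V : Type u) [NormedAddCommGroup V] [NormedSpace ℝ V] [FiniteDimensional ℝ V] (d : ℕ)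
    (b : Module.Basis (Fin d) ℝ V) (Φ : V → ℝ), ContDiff ℝ ∞ Φ → HasCompactSupport Φ →
    ∃ M : ℝ, ∀ k : ℕ, ∃ C : ℝ, ∀ R : ℝ, 1 ≤ R →
      |∑' n : Fin d → ℤ, Φ (R⁻¹ • ∑ i, (n i : ℝ) • b i) - M * R ^ d| ≤ C / R ^ k

/-! ### The partition of unity -/

/-- A smooth function with support in `[-1, 1]` whose integral translates have sum 1. -/
noncomputable def chi (c : ℝ) : ℝ := Real.smoothTransition (c + 1) - Real.smoothTransition c

/-- C1 (properties of `chi`): the sum telescopes, only the terms with `-1 < c + n < 1` are not zero. -/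
def StC1 : Prop :=
  ContDiff ℝ ∞ chi ∧ (∀ c, 1 ≤ |c| → chi c = 0) ∧
    (∀ c : ℝ, {n : ℤ | chi (c + n) ≠ 0}.Finite) ∧ ∀ c : ℝ, ∑' n : ℤ, chi (c + n) = 1

/-- C2 (products): `{n | ∏ chi (c_i + n_i) ≠ 0}` is finite and the sum is 1 (induction on `r`,
`Fin.consEquiv`/`Fin.insertNthEquiv`, or `Finset.prod_univ_sum` over a large box). -/
def StC2 : Prop :=
  ∀ (r : ℕ) (c : Fin r → ℝ), {n : Fin r → ℤ | ∏ i, chi (c i + n i) ≠ 0}.Finite ∧
    ∑' n : Fin r → ℤ, ∏ i, chi (c i + n i) = 1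

section field

variable (K : Type u) [Field K] [NumberField K]

open Classical in
/-- The real basis of the logarithmic space given by the fundamental units. -/
noncomputable def lB : Module.Basis (Fin (rank K)) ℝ (dirichletUnitTheorem.logSpace K) :=
  (basisUnitLattice K).ofZLatticeBasis ℝ (unitLattice K)

/-- The cut-off function. -/
noncomputable def psi (v : mixedSpace K) : ℝ :=
  ∏ i, chi ((lB K).repr (logMap v) i)

/-- The test function on the mixed space. -/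
noncomputable def Phi (Θ : ℝ → ℝ) (v : mixedSpace K) : ℝ := Θ (mixedEmbedding.norm v) * psi K v

end field

open scoped Classical in
/-- P1 (regularity).  If `norm v = 0` then `Θ` vanishes near `0` (`tsupport Θ ⊆ Ioi 0`), so `Phi` vanishes near
`v` (continuity of `norm`).  If `norm v ≠ 0` all `normAtPlace w v` are not zero, they are absolute values of
coordinates (real or complex), smooth there (`contDiffAt_norm`), `Real.log` is smooth, the coordinates in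
`lB K` are linear.  Compact support (finite dimension: bounded and closed): if `Phi v ≠ 0` then
`a ≤ norm v ≤ b` with `0 < a`, all coordinates of `logMap v` in `lB K` are in `[-1, 1]`, so `logMap v` is
bounded; `∑_w mult w (log (normAtPlace w v) - log (norm v) / d) = 0` bounds also the place `w₀` from above, so
all `normAtPlace w v` are bounded (`norm_eq_sup'_normAtPlace`). -/
def StP1 : Prop :=
  StC1 → ∀ (K : Type u) [Field K] [NumberField K] (Θ : ℝ → ℝ), Test Θ →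
    ContDiff ℝ ∞ (Phi K Θ) ∧ HasCompactSupport (Phi K Θ)

/-- P2 (homogeneity).  `norm (R⁻¹ • v) = norm v / R^d` (`mixedEmbedding.norm_smul`), `logMap_real_smul`; if
`norm v = 0` both sides are `0` as `Θ 0 = 0`. -/
def StP2 : Prop :=
  ∀ (K : Type u) [Field K] [NumberField K] (Θ : ℝ → ℝ), Test Θ → ∀ (R : ℝ), 0 < R →
    ∀ v : mixedSpace K, Θ (mixedEmbedding.norm v / R ^ Module.finrank ℚ K) * psi K v =
      Phi K Θ (R⁻¹ • v)

/-- P3 (units).  `logMap (u • v) = logEmbedding u + logMap v` (`logMap_unit_smul`); by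
`exist_unique_eq_mul_prod` every unit is uniquely `ζ ∏ (fundSystem i)^(e_i)`, and then the coordinates of
`logMap (u • v)` in `lB K` are `c_i + e_i` (`logEmbedding_fundSystem`, `logEmbedding_eq_zero_iff`,
`Module.Basis.ofZLatticeBasis_apply`).  So the sum over the units is `#torsion · ∑_e ∏ chi (c_i + e_i)`,
C2. -/
def StP3 : Prop :=
  StC2 → ∀ (K : Type u) [Field K] [NumberField K] (v : mixedSpace K), mixedEmbedding.norm v ≠ 0 →
    {u : (𝓞 K)ˣ | psi K (u • v) ≠ 0}.Finite ∧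
      ∑' u : (𝓞 K)ˣ, psi K (u • v) = torsionOrder K

/-- P4 (principal ideals).  Only finitely many `a ∈ J` contribute (P1, `Phi` has compact support, discrete
lattice; or: finitely many principal ideals of bounded norm and P3).  The elements `a ≠ 0` of `J` with
`(a) = P` are the `u a₀`, `u` a unit, for every nonzero principal ideal `P = (a₀)` divisible by `J`;
`mixedEmbedding.norm` of them is `absNorm P` (`norm_eq_norm`, `Ideal.absNorm_span_singleton`), and P3.  The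
term `a = 0` is `0`. -/
def StP4 : Prop :=
  StP3.{u} → ∀ (K : Type u) [Field K] [NumberField K] (J : (Ideal (𝓞 K))⁰) (Θ : ℝ → ℝ), Test Θ →
    ∀ x : ℝ, 0 < x →
    ∑' a : (J : Ideal (𝓞 K)), Θ (mixedEmbedding.norm (mixedEmbedding K ((a : 𝓞 K) : K)) / x) *
        psi K (mixedEmbedding K ((a : 𝓞 K) : K)) =
      torsionOrder K * ∑' P : {P : (Ideal (𝓞 K))⁰ // (J : Ideal (𝓞 K)) ∣ P ∧
        Submodule.IsPrincipal (P : Ideal (𝓞 K))},
          Θ ((Ideal.absNorm ((P : (Ideal (𝓞 K))⁰) : Ideal (𝓞 K)) : ℝ) / x)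

/-- P5 (the lattice of an ideal).  A `ℤ`-basis of `J` (free of rank `d = [K : ℚ]`) is mapped to a real basis of the
mixed space (`mixedEmbedding.fractionalIdealLatticeBasis` and its neighbours in
`CanonicalEmbedding/Basic.lean`). -/
def StP5 : Prop :=
  ∀ (K : Type u) [Field K] [NumberField K] (J : (Ideal (𝓞 K))⁰),
    ∃ (b : Module.Basis (Fin (Module.finrank ℚ K)) ℝ (mixedSpace K))
      (e : (Fin (Module.finrank ℚ K) → ℤ) ≃ (J : Ideal (𝓞 K))),
      ∀ n, mixedEmbedding K ((e n : 𝓞 K) : K) = ∑ i, (n i : ℝ) • b i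

/-- P6 (principal ideals, asymptotics).  P4, P5 (reindex the sum), P2 with `R = x^(1/d)`, P1 and L4 with
`k = 2 d`: `R^d = x`, `R^(2d) = x²`. -/
def StP6 : Prop :=
  StL4.{u} → StP1.{u} → StP2.{u} → StP4.{u} → StP3.{u} → StP5.{u} → StC1 →
  ∀ (K : Type u) [Field K] [NumberField K] (J : (Ideal (𝓞 K))⁰) (Θ : ℝ → ℝ), Test Θ →
    ∃ M C : ℝ, ∀ x : ℝ, 1 ≤ x →
      |∑' P : {P : (Ideal (𝓞 K))⁰ // (J : Ideal (𝓞 K)) ∣ P ∧
        Submodule.IsPrincipal (P : Ideal (𝓞 K))},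
          Θ ((Ideal.absNorm ((P : (Ideal (𝓞 K))⁰) : Ideal (𝓞 K)) : ℝ) / x) - M * x| ≤ C / x ^ 2

/-- The conclusion of P6 (without the hypotheses). -/
def StP6' : Prop :=
  ∀ (K : Type u) [Field K] [NumberField K] (J : (Ideal (𝓞 K))⁰) (Θ : ℝ → ℝ), Test Θ →
    ∃ M C : ℝ, ∀ x : ℝ, 1 ≤ x →
      |∑' P : {P : (Ideal (𝓞 K))⁰ // (J : Ideal (𝓞 K)) ∣ P ∧
        Submodule.IsPrincipal (P : Ideal (𝓞 K))},
          Θ ((Ideal.absNorm ((P : (Ideal (𝓞 K))⁰) : Ideal (𝓞 K)) : ℝ) / x) - M * x| ≤ C / x ^ 2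

/-- P7 (all ideals).  For every class `C` choose `J` with `[J] = C⁻¹`; `I ↦ I J` is a bijection between the
ideals of the class `C` and the nonzero principal ideals divisible by `J` (see
`tendsto_norm_le_and_mk_eq_div_atTop_aux₁` in Mathlib, `Equiv.dvd`), with `N(I J) = N(I) N(J)`: P6 at `N(J) x`;
sum over the finitely many classes.  (Only finitely many ideals contribute to each sum.) -/
def StP7 : Prop :=
  StP6'.{u} → ∀ (K : Type u) [Field K] [NumberField K] (Θ : ℝ → ℝ), Test Θ →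
    ∃ M C : ℝ, ∀ x : ℝ, 1 ≤ x →
      |∑' I : (Ideal (𝓞 K))⁰, Θ ((Ideal.absNorm (I : Ideal (𝓞 K)) : ℝ) / x) - M * x| ≤ C / x ^ 2

/-! ### Sign changes -/

/-- The number of nonzero ideals of norm at most `y`. -/
noncomputable def JJ (K : Type u) [Field K] [NumberField K] (y : ℝ) : ℝ :=
  ((Nat.card {I : (Ideal (𝓞 K))⁰ // (Ideal.absNorm (I : Ideal (𝓞 K)) : ℝ) ≤ y} : ℕ) : ℝ)

/-- A1 (partial summation).  `Ψ` smooth with `Ψ = 0` on `[b, ∞)`: `Ψ(t) = - ∫_t^∞ Ψ'`, so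
`∑_I Ψ(N(I)/x) = - ∫_0^∞ J(x u) Ψ'(u) du` (finite sum: `N(I) ≤ b x`; exchange with the integral;
`N(I)/x ≤ u ⟺ N(I) ≤ x u`). -/
def StA1 : Prop :=
  ∀ (K : Type u) [Field K] [NumberField K] (Ψ : ℝ → ℝ) (b : ℝ), ContDiff ℝ ∞ Ψ → 0 < b →
    (∀ t, b ≤ t → Ψ t = 0) → ∀ x : ℝ, 0 < x →
    ∑' I : (Ideal (𝓞 K))⁰, Ψ ((Ideal.absNorm (I : Ideal (𝓞 K)) : ℝ) / x) =
      -∫ u in (0 : ℝ)..b, JJ K (x * u) * deriv Ψ u

/-- A2 (no main term).  `S(x) = ∑_I Θ(N(I)/x)`.  By A1 and `J(y)/y → κ`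
(`NumberField.Ideal.tendsto_norm_le_div_atTop₀`; `J(y) ≤ C y` for all `y > 0`) dominated convergence gives
`S(x)/x → - κ ∫ u Θ'(u) du = κ ∫ Θ = 0`; with P7 `M = 0`. -/
def StA2 : Prop :=
  StA1.{u} → StP7.{u} → StP6'.{u} → ∀ (K : Type u) [Field K] [NumberField K] (Θ : ℝ → ℝ), Test Θ →
    ∫ t, Θ t = 0 → ∃ C : ℝ, ∀ x : ℝ, 1 ≤ x →
      |∑' I : (Ideal (𝓞 K))⁰, Θ ((Ideal.absNorm (I : Ideal (𝓞 K)) : ℝ) / x)| ≤ C / x ^ 2

/-- The conclusion of A2. -/
def StA2' : Prop :=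
  ∀ (K : Type u) [Field K] [NumberField K] (Θ : ℝ → ℝ), Test Θ →
    ∫ t, Θ t = 0 → ∃ C : ℝ, ∀ x : ℝ, 1 ≤ x →
      |∑' I : (Ideal (𝓞 K))⁰, Θ ((Ideal.absNorm (I : Ideal (𝓞 K)) : ℝ) / x)| ≤ C / x ^ 2

/-- The combination `D(x) = ∑_(j < n) c_j J(x / 2^j)`. -/
noncomputable def DDx (K : Type u) [Field K] [NumberField K] (n : ℕ) (c : ℕ → ℤ) (x : ℝ) : ℝ :=
  ∑ j ∈ Finset.range n, (c j : ℝ) * JJ K (x / 2 ^ j)

/-- A3 (not constant).  Let `j₀ < n` be the least index with `c_(j₀) ≠ 0`.  For `m = 2^(j₀) q`, `q = 3^(d i)` odd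
(`q` is the norm of the ideal generated by `3^i`, `d = [K : ℚ]`) we have
`D(m) - D(m - 1) = ∑_j c_j #{I : 2^j N(I) = m} = c_(j₀) #{I : N(I) = q} ≠ 0` (for integers `m` the difference
`J(m / 2^j) - J((m-1) / 2^j)` counts the ideals of norm exactly `m / 2^j`; for `j > j₀` there is none,
since `2^j ∤ m`). -/
def StA3 : Prop :=
  ∀ (K : Type u) [Field K] [NumberField K] (n : ℕ) (c : ℕ → ℤ), (∃ j < n, c j ≠ 0) →
    ∀ N : ℕ, ∃ m : ℕ, N ≤ m ∧ DDx K n c m ≠ 0

/-- A4 (the smooth average).  `Ψ(t) = Real.smoothTransition (2 - t)`: `1` for `t ≤ 1`, `0` for `t ≥ 2`,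
antitone.  `Θ(t) = ∑_j c_j Ψ(2^j t)`: it vanishes for small `t` (`∑ c_j = 0`) and for `t ≥ 2`, smooth, and
`∫_0^∞ Θ = ∑ c_j 2^(-j) ∫_0^∞ Ψ = 0`.  (`Θ` has to be made `0` for `t ≤ 0`: it is, as `Ψ(2^j t) = 1` for
`t ≤ 0`.)  By A1 for `Ψ` at `x / 2^j`: `∑_I Θ(N(I)/x) = ∫_0^2 D(x u) (-Ψ'(u)) du`, and A2. -/
def StA4 : Prop :=
  StA1.{u} → StA2'.{u} → ∀ (K : Type u) [Field K] [NumberField K] (n : ℕ) (c : ℕ → ℤ),
    ∑ j ∈ Finset.range n, c j = 0 → ∑ j ∈ Finset.range n, (c j : ℝ) / 2 ^ j = 0 →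
    ∃ C : ℝ, ∀ x : ℝ, 1 ≤ x → |∫ u in (0 : ℝ)..2,
      DDx K n c (x * u) * (-deriv (fun t : ℝ => Real.smoothTransition (2 - t)) u)| ≤ C / x ^ 2

/-- The conclusion of A4. -/
def StA4' : Prop :=
  ∀ (K : Type u) [Field K] [NumberField K] (n : ℕ) (c : ℕ → ℤ),
    ∑ j ∈ Finset.range n, c j = 0 → ∑ j ∈ Finset.range n, (c j : ℝ) / 2 ^ j = 0 →
    ∃ C : ℝ, ∀ x : ℝ, 1 ≤ x → |∫ u in (0 : ℝ)..2,
      DDx K n c (x * u) * (-deriv (fun t : ℝ => Real.smoothTransition (2 - t)) u)| ≤ C / x ^ 2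

/-- A5 (sign changes).  (`Real.smoothTransition` is monotone: `f(x) / (f(x) + f(1-x))` with `f` monotone.)
By symmetry (`c ↦ -c`) only: `D` is positive for arbitrarily large `x`.  Otherwise
`D(x) ≤ 0` for `x ≥ x₀`.  `w(u) = -Ψ'(u) ≥ 0` is continuous, zero outside `[1, 2]`, and not identically zero
(`Ψ(1) = 1`, `Ψ(2) = 0`), so `w ≥ δ > 0` on some interval `[α, β]`, `1 ≤ α < β ≤ 2`.  Let `m` be a large integer with
`D(m) ≠ 0` (A3), so `D(m) ≤ -1` (an integer), and `D(y) = D(m)` for `m ≤ y < m + 1` (`J(y / 2^j)` depends only on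
`⌊y⌋`).  With `x = m / α'` (`α' ∈ (α, β)` the midpoint) the numbers `u = y / x`, `m ≤ y < m + 1`, lie in `[α, β]` for
large `m` and form an interval of length `1/x`.  So the integral of A4 is `≤ - δ / x` (the integrand is `≤ 0` for
`x u ≥ x₀`, in particular on `[1, 2]`, and `0` for `u ≤ 1`), which contradicts `≥ - C / x²` for large `x`. -/
def StA5 : Prop :=
  StA3.{u} → StA4'.{u} → ∀ (K : Type u) [Field K] [NumberField K] (n : ℕ) (c : ℕ → ℤ),
    (∃ j < n, c j ≠ 0) → ∑ j ∈ Finset.range n, c j = 0 →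
    ∑ j ∈ Finset.range n, (c j : ℝ) / 2 ^ j = 0 →
    (∀ x₀ : ℝ, ∃ x : ℝ, x₀ ≤ x ∧ 0 < DDx K n c x) ∧ ∀ x₀ : ℝ, ∃ x : ℝ, x₀ ≤ x ∧ DDx K n c x < 0

end Pool.Agent.Helper3.SG
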