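import Pool.Agent.Helper3.SG.St
import Pool.Agent.Helper3.CF.Count

/-!
# SG: application to the juntas (statements)

`E` is the finite set of the prime ideals of norm 2; `CF.fam E H n` are the ideals of norm `≤ n` whose set of prime
divisors in `E` belongs to `H`; `CF.J K n` the number of nonzero ideals of norm `≤ n`.
-/

set_option autoImplicit false

namespace Pool.Agent.Helper3.SG

open NumberField Pool.Agent.Helper3.CF

universe u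

/-- The conclusion of A5. -/
def StA5' : Prop :=
  ∀ (K : Type u) [Field K] [NumberField K] (n : ℕ) (c : ℕ → ℤ),
    (∃ j < n, c j ≠ 0) → ∑ j ∈ Finset.range n, c j = 0 →
    ∑ j ∈ Finset.range n, (c j : ℝ) / 2 ^ j = 0 →
    (∀ x₀ : ℝ, ∃ x : ℝ, x₀ ≤ x ∧ 0 < DDx K n c x) ∧ ∀ x₀ : ℝ, ∃ x : ℝ, x₀ ≤ x ∧ DDx K n c x < 0

/-- G0 (integers).  `JJ K (x / 2^j) = J K (⌊x⌋₊ / 2^j)` for `x ≥ 0`; so A5 gives integers. -/
def StG0 : Prop :=
  StA5'.{u} → ∀ (K : Type u) [Field K] [NumberField K] (n : ℕ) (c : ℕ → ℤ),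
    (∃ j < n, c j ≠ 0) → ∑ j ∈ Finset.range n, c j = 0 →
    ∑ j ∈ Finset.range n, (c j : ℝ) / 2 ^ j = 0 →
    (∀ N : ℕ, ∃ m : ℕ, N ≤ m ∧ 0 < ∑ j ∈ Finset.range n, c j * (J K (m / 2 ^ j) : ℤ)) ∧
      ∀ N : ℕ, ∃ m : ℕ, N ≤ m ∧ ∑ j ∈ Finset.range n, c j * (J K (m / 2 ^ j) : ℤ) < 0

/-- The conclusion of G0. -/
def StG0' : Prop :=
  ∀ (K : Type u) [Field K] [NumberField K] (n : ℕ) (c : ℕ → ℤ),
    (∃ j < n, c j ≠ 0) → ∑ j ∈ Finset.range n, c j = 0 →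
    ∑ j ∈ Finset.range n, (c j : ℝ) / 2 ^ j = 0 →
    (∀ N : ℕ, ∃ m : ℕ, N ≤ m ∧ 0 < ∑ j ∈ Finset.range n, c j * (J K (m / 2 ^ j) : ℤ)) ∧
      ∀ N : ℕ, ∃ m : ℕ, N ≤ m ∧ ∑ j ∈ Finset.range n, c j * (J K (m / 2 ^ j) : ℤ) < 0

/-- G1 (two maximal intersecting families).  `k = #E`.  By `CF.fam_card_formula`
`#fam E H n = ∑_(i ≤ k) a_H(i) J(n / 2^i)` with
`a_H(i) = ∑_(S ∈ H, |S| ≤ i) (-1)^(i-|S|) C(k-|S|, i-|S|)`.  `∑_i a_H(i) = ∑_(S ∈ H) ∑_j (-1)^j C(k-|S|, j)` is the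
number of `S ∈ H` with `|S| = k`, that is `1` (`∅ ∉ H`, so `E ∈ H`);
`∑_i a_H(i) 2^(-i) = ∑_(S ∈ H) 2^(-|S|) (1 - 1/2)^(k-|S|) = #H / 2^k = 1/2` (`MaxI.compl`: exactly one of `S`, `E \ S` is in
`H`).  So `c = a_H - a_H'` satisfies the hypotheses of G0 unless `c = 0`; then the sizes agree for all
`n`. -/
def StG1 : Prop :=
  StG0'.{u} → ∀ (K : Type u) [Field K] [NumberField K] (E : Finset (Ideal (𝓞 K))), IsE2 E →
    ∀ H H' : Finset (Finset (Ideal (𝓞 K))), MaxI E H → MaxI E H' →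
    (∀ n : ℕ, (fam E H n).card = (fam E H' n).card) ∨
      ((∀ N : ℕ, ∃ n : ℕ, N ≤ n ∧ (fam E H' n).card < (fam E H n).card) ∧
        ∀ N : ℕ, ∃ n : ℕ, N ≤ n ∧ (fam E H n).card < (fam E H' n).card)

/-- The conclusion of G1. -/
def StG1' : Prop :=
  ∀ (K : Type u) [Field K] [NumberField K] (E : Finset (Ideal (𝓞 K))), IsE2 E →
    ∀ H H' : Finset (Finset (Ideal (𝓞 K))), MaxI E H → MaxI E H' →
    (∀ n : ℕ, (fam E H n).card = (fam E H' n).card) ∨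
      ((∀ N : ℕ, ∃ n : ℕ, N ≤ n ∧ (fam E H' n).card < (fam E H n).card) ∧
        ∀ N : ℕ, ∃ n : ℕ, N ≤ n ∧ (fam E H n).card < (fam E H' n).card)

/-- G2 (no family is always optimal).  `p, q, r ∈ E` different.  The families `{S ⊆ E : p ∈ S}` (`star_MaxI`) and
`{S ⊆ E : |S ∩ {p, q, r}| ≥ 2}` are maximal intersecting, of sizes `1` (`star_card`, `J(1) = 1`) and `0` (an ideal divisible
by two primes of norm 2 has norm `≥ 4`) for `n = 2`.  So `H` differs from one of them at `n = 2`, and G1 applies to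
`H` and this one. -/
def StG2 : Prop :=
  StG1'.{u} → ∀ (K : Type u) [Field K] [NumberField K] (E : Finset (Ideal (𝓞 K))), IsE2 E →
    3 ≤ E.card → ∀ H : Finset (Finset (Ideal (𝓞 K))), MaxI E H →
    ∃ H' : Finset (Finset (Ideal (𝓞 K))), MaxI E H' ∧
      ∀ N : ℕ, ∃ n : ℕ, N ≤ n ∧ (fam E H n).card < (fam E H' n).card

end Pool.Agent.Helper3.SG
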